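import Pool.Agent.TH686.DO.Inv

set_option autoImplicit false

/-! Existence of dense linear orders with an involution which describe pairs of orders. -/

namespace Pool.Agent.TH686.DO

open FirstOrder FirstOrder.Language
open Pool.Agent.W889.FO Pool.Agent.W889.VC
open Pool.Agent.W889.FO.StE (LG gd)
open Pool.Agent.TH686.FO

/-- the sum of two orders -/
def So (l k : ℕ → ℕ → Prop) : ℕ ⊕ ℕ → ℕ ⊕ ℕ → Prop
  | Sum.inl a, Sum.inl b => l a b
  | Sum.inl _, Sum.inr _ => True
  | Sum.inr _, Sum.inl _ => False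
  | Sum.inr a, Sum.inr b => k a b

/-- the matching -/
def Sm : ℕ ⊕ ℕ → ℕ ⊕ ℕ → Prop
  | Sum.inl a, Sum.inr b => a = b
  | Sum.inr a, Sum.inl b => a = b
  | Sum.inl _, Sum.inl _ => False
  | Sum.inr _, Sum.inr _ => False

variable {l k : ℕ → ℕ → Prop}

theorem so_irrefl (hl : DL1 l) (hk : DL1 k) (u : ℕ ⊕ ℕ) : ¬ So l k u u := by
  rcases u with a | a
  · exact hl.slo.irrefl a
  · exact hk.slo.irrefl a

theorem so_trans (hl : DL1 l) (hk : DL1 k) (u v w : ℕ ⊕ ℕ) (h1 : So l k u v)
    (h2 : So l k v w) : So l k u w := by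
  rcases u with a | a <;> rcases v with b | b <;> rcases w with c | c
  · exact hl.slo.trans _ _ _ h1 h2
  · trivial
  · exact h2.elim
  · trivial
  · exact h1.elim
  · exact h1.elim
  · exact h2.elim
  · exact hk.slo.trans _ _ _ h1 h2

theorem so_total (hl : DL1 l) (hk : DL1 k) (u v : ℕ ⊕ ℕ) (h : u ≠ v) :
    So l k u v ∨ So l k v u := by
  rcases u with a | a <;> rcases v with b | b
  · exact hl.slo.total a b fun e => h (by rw [e])
  · exact Or.inl trivial
  · exact Or.inr trivial
  · exact hk.slo.total a b fun e => h (by rw [e])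

theorem so_dense (hl : DL1 l) (hk : DL1 k) (u v : ℕ ⊕ ℕ) (h : So l k u v) :
    ∃ w, So l k u w ∧ So l k w v := by
  rcases u with a | a <;> rcases v with b | b
  · obtain ⟨w, h1, h2⟩ := hl.dn a b h
    exact ⟨Sum.inl w, h1, h2⟩
  · obtain ⟨w, h1⟩ := hl.ab a
    exact ⟨Sum.inl w, h1, trivial⟩
  · exact h.elim
  · obtain ⟨w, h1, h2⟩ := hk.dn a b h
    exact ⟨Sum.inr w, h1, h2⟩

theorem so_above (hl : DL1 l) (hk : DL1 k) (u : ℕ ⊕ ℕ) : ∃ w, So l k u w := by
  rcases u with a | a
  · obtain ⟨w, h⟩ := hl.ab a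
    exact ⟨Sum.inl w, h⟩
  · obtain ⟨w, h⟩ := hk.ab a
    exact ⟨Sum.inr w, h⟩

theorem so_below (hl : DL1 l) (hk : DL1 k) (u : ℕ ⊕ ℕ) : ∃ w, So l k w u := by
  rcases u with a | a
  · obtain ⟨w, h⟩ := hl.be a
    exact ⟨Sum.inl w, h⟩
  · obtain ⟨w, h⟩ := hk.be a
    exact ⟨Sum.inr w, h⟩

theorem sm_symm (u v : ℕ ⊕ ℕ) (h : Sm u v) : Sm v u := by
  rcases u with a | a <;> rcases v with b | b
  · exact h.elim
  · exact Eq.symm h
  · exact Eq.symm h
  · exact h.elim

theorem sm_irrefl (u : ℕ ⊕ ℕ) : ¬ Sm u u := by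
  rcases u with a | a <;> exact fun h => h.elim

theorem sm_fun (u v w : ℕ ⊕ ℕ) (h1 : Sm u v) (h2 : Sm u w) : v = w := by
  rcases u with a | a <;> rcases v with b | b <;> rcases w with c | c
  · exact h1.elim
  · exact h1.elim
  · exact h2.elim
  · have e1 : a = b := h1
    have e2 : a = c := h2
    rw [← e1, ← e2]
  · have e1 : a = b := h1
    have e2 : a = c := h2
    rw [← e1, ← e2]
  · exact h2.elim
  · exact h1.elim
  · exact h1.elim

theorem sm_total (u : ℕ ⊕ ℕ) : ∃ v, Sm u v := by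
  rcases u with a | a
  · exact ⟨Sum.inr a, rfl⟩
  · exact ⟨Sum.inl a, rfl⟩

theorem sm_cut (u u' v v' : ℕ ⊕ ℕ) (h1 : Sm u u') (h2 : Sm v v') (h3 : So l k u u')
    (h4 : So l k v v') : So l k u v' := by
  rcases u with a | a <;> rcases u' with a' | a'
  · exact h1.elim
  · rcases v with b | b <;> rcases v' with b' | b'
    · exact h2.elim
    · trivial
    · exact h4.elim
    · exact h2.elim
  · exact h3.elim
  · exact h1.elim

theorem ex2 (M : L2.Structure ℕ) (hl : DL1 (g1 M)) (hk : DL1 (g2 M)) :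
    ∃ S, IW S ∧ SIso (I2.D S) M := by
  obtain ⟨π⟩ : Nonempty (ℕ ≃ ℕ ⊕ ℕ) := nonempty_equiv_of_countable
  let S := ofq (fun u v => So (g1 M) (g2 M) (π u) (π v)) (fun u v => Sm (π u) (π v))
  have e1 : g1 S = fun u v => So (g1 M) (g2 M) (π u) (π v) := rfl
  have e2 : g2 S = fun u v => Sm (π u) (π v) := rfl
  have hW : IW S := by
    refine ⟨⟨fun u => so_irrefl hl hk _, fun u v w => so_trans hl hk _ _ _,
      fun u v huv => so_total hl hk _ _ fun e => huv (π.injective e)⟩, fun u v h => ?_,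
      fun u => ?_, fun u => ?_, fun u v => sm_symm _ _, fun u => sm_irrefl _,
      fun u v w h1 h2 => π.injective (sm_fun _ _ _ h1 h2), fun u => ?_,
      fun u u' v v' => sm_cut _ _ _ _⟩
    · obtain ⟨w, h1, h2⟩ := so_dense hl hk _ _ h
      exact ⟨π.symm w, by rw [e1]; simpa using h1, by rw [e1]; simpa using h2⟩
    · obtain ⟨w, h1⟩ := so_above hl hk (π u)
      exact ⟨π.symm w, by rw [e1]; simpa using h1⟩
    · obtain ⟨w, h1⟩ := so_below hl hk (π u)
      exact ⟨π.symm w, by rw [e1]; simpa using h1⟩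
    · obtain ⟨w, h1⟩ := sm_total (π u)
      exact ⟨π.symm w, by rw [e2]; simpa using h1⟩
  have hdm : ∀ u, dm S u ↔ ∃ a, π u = Sum.inl a := by
    intro u
    unfold dm
    rw [e1, e2]
    constructor
    · rintro ⟨v, h1, h2⟩
      rcases h3 : π u with a | a
      · exact ⟨a, rfl⟩
      · rcases h4 : π v with b | b
        · rw [h3, h4] at h2
          exact h2.elim
        · rw [h3, h4] at h1
          exact h1.elim
    · rintro ⟨a, ha⟩
      refine ⟨π.symm (Sum.inr a), ?_, ?_⟩
      · show Sm (π u) (π (π.symm (Sum.inr a)))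
        rw [Equiv.apply_symm_apply, ha]
        exact rfl
      · show So (g1 M) (g2 M) (π u) (π (π.symm (Sum.inr a)))
        rw [Equiv.apply_symm_apply, ha]
        trivial
  have hval : ∀ u, dm S u → π u = Sum.inl (Sum.elim id id (π u)) := by
    intro u hu
    obtain ⟨a, ha⟩ := (hdm u).1 hu
    rw [ha]
    rfl
  have hsd : ∀ u v, dm S u → dm S v →
      (sd S u v ↔ g2 M (Sum.elim id id (π u)) (Sum.elim id id (π v))) := by
    intro u v hu hv
    obtain ⟨a, ha⟩ := (hdm u).1 hu
    obtain ⟨b, hb⟩ := (hdm v).1 hv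
    rw [ha, hb]
    show _ ↔ g2 M a b
    constructor
    · rintro ⟨u', v', h1, h2, h3⟩
      have h1' : Sm (π u) (π u') := h1
      have h2' : Sm (π v) (π v') := h2
      have h3' : So (g1 M) (g2 M) (π u') (π v') := h3
      rw [ha] at h1'
      rw [hb] at h2'
      have k1 := sm_fun _ _ (Sum.inr a) h1' rfl
      have k2 := sm_fun _ _ (Sum.inr b) h2' rfl
      rw [k1, k2] at h3'
      exact h3'
    · intro h
      refine ⟨π.symm (Sum.inr a), π.symm (Sum.inr b), ?_, ?_, ?_⟩
      · show Sm (π u) (π (π.symm (Sum.inr a)))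
        rw [Equiv.apply_symm_apply, ha]
        exact rfl
      · show Sm (π v) (π (π.symm (Sum.inr b)))
        rw [Equiv.apply_symm_apply, hb]
        exact rfl
      · show So (g1 M) (g2 M) (π (π.symm (Sum.inr a))) (π (π.symm (Sum.inr b)))
        rw [Equiv.apply_symm_apply, Equiv.apply_symm_apply]
        exact h
  refine ⟨S, hW, Itq_D_iso I2 (S := S) hW M (fun u => Sum.elim id id (π u)) (fun n => ?_)
    (fun u v hu hv => ?_) fun {n} Q u hu => ?_⟩
  · exact ⟨π.symm (Sum.inl n), (hdm _).2 ⟨n, π.apply_symm_apply _⟩, by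
      rw [Equiv.apply_symm_apply]
      rfl⟩
  · show u = v ↔ Sum.elim id id (π u) = Sum.elim id id (π v)
    constructor
    · rintro rfl
      rfl
    · intro h1
      apply π.injective
      rw [hval u hu, hval v hv, h1]
  · cases Q with
    | fst =>
      show g1 S (u 0) (u 1) ↔ @Structure.RelMap L2 ℕ M 2 R2.fst _
      rw [← two_eta fun i => Sum.elim id id (π (u i))]
      show So (g1 M) (g2 M) (π (u 0)) (π (u 1)) ↔ g1 M _ _
      rw [hval _ (hu 0), hval _ (hu 1)]
      exact Iff.rfl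
    | snd =>
      show sd S (u 0) (u 1) ↔ @Structure.RelMap L2 ℕ M 2 R2.snd _
      rw [← two_eta fun i => Sum.elim id id (π (u i))]
      exact hsd _ _ (hu 0) (hu 1)

/-- Vaught's conjecture reduces to theories of dense linear orders with an involution. -/
theorem red_inv (hV : ∀ T' : L2.Theory, (∀ S : L2.Structure ℕ, @Theory.Model L2 ℕ S T' →
    IW S) → Vaught L2 T') (T : LG.Theory) : Vaught LG T := by
  have := countable_L2
  refine red_dd (fun T' hT' => ?_) T
  refine I2.transfer (fun S S' => up2 S S') T' (fun M hM => ?_) fun T2 hT2 =>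
    hV T2 fun S hS => (hT2 S hS).1
  obtain ⟨h1, h2⟩ := hT' M hM
  exact ex2 M h1 h2

/-- all theories from the complete theories of dense linear orders with an involution -/
theorem full_inv (hV : ∀ T : L2.Theory, T.IsComplete → (∀ S : L2.Structure ℕ,
      @Theory.Model L2 ℕ S T → IW S) → VaughtF L2 T)
    (L : FirstOrder.Language.{0, 0}) (hL : Countable L.Symbols) (T : L.Theory) :
    VaughtF L T := by
  have := countable_L2
  exact all_of_LG (red_inv fun T hT => compl hV T hT) L hL T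

/-- all theories from the complete theories of pairs of dense linear orders -/
theorem full_dd (hV : ∀ T : L2.Theory, T.IsComplete → (∀ S : L2.Structure ℕ,
      @Theory.Model L2 ℕ S T → DL1 (g1 S) ∧ DL1 (g2 S)) → VaughtF L2 T)
    (L : FirstOrder.Language.{0, 0}) (hL : Countable L.Symbols) (T : L.Theory) :
    VaughtF L T := by
  have := countable_L2
  exact all_of_LG (red_dd fun T hT => compl hV T hT) L hL T

end Pool.Agent.TH686.DO
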