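import Pool.Agent.TH686.DO.Blow

set_option autoImplicit false

/-! Interpreted structures and the blow-up. -/

namespace Pool.Agent.TH686.DO

open FirstOrder FirstOrder.Language
open Pool.Agent.W889.FO Pool.Agent.W889.VC
open Pool.Agent.TH686.FO

/-- recognising the interpreted structure -/
theorem Itq_D_iso {L L' : FirstOrder.Language.{0, 0}} (I : Itq L L') [L.IsRelational]
    {S : L'.Structure ℕ} (h : I.W S) (M : L.Structure ℕ) (p : ℕ → ℕ)
    (h1 : ∀ n, ∃ u, I.dom S u ∧ p u = n)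
    (h2 : ∀ u v, I.dom S u → I.dom S v → (I.eqv S u v ↔ p u = p v))
    (h3 : ∀ {n : ℕ} (R : L.Relations n) (u : Fin n → ℕ), (∀ i, I.dom S (u i)) →
      (I.rel R S u ↔ @Structure.RelMap L ℕ M n R (fun i => p (u i)))) :
    SIso (I.D S) M := by
  obtain ⟨τ, hτ⟩ := Pool.Agent.W889.SD.equiv_of_rel
    (fun n m => ∃ u, I.lab S n u ∧ p u = m)
    (fun n => by
      obtain ⟨u, hu⟩ := I.lab_surj h n
      exact ⟨p u, u, hu, rfl⟩)
    (fun m => by
      obtain ⟨u, hu, rfl⟩ := h1 m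
      obtain ⟨n, hn⟩ := I.ex_lab h hu
      exact ⟨n, u, hn, rfl⟩)
    (by
      rintro n m m' ⟨u, k1, rfl⟩ ⟨u', k2, rfl⟩
      exact (h2 _ _ k1.1 k2.1).1 ((I.lab_eq h k1 k2).2 rfl))
    (by
      rintro n n' m ⟨u, k1, rfl⟩ ⟨u', k2, k3⟩
      exact (I.lab_eq h k1 k2).1 ((h2 _ _ k1.1 k2.1).2 k3.symm))
  obtain ⟨e, -⟩ := siso_of (S := I.D S) (S' := M) τ (fun n R v => by
    choose u hu using fun i => I.lab_surj h (v i)
    rw [I.rel_iff h R hu, h3 R u fun i => (hu i).1]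
    have e : (fun i => τ (v i)) = fun i => p (u i) := by
      funext i
      obtain ⟨u', k1, k2⟩ := hτ (v i)
      rw [← k2]
      exact (h2 _ _ k1.1 (hu i).1).1 ((I.lab_eq h k1 (hu i)).2 rfl)
    rw [e])
  exact ⟨e⟩

/-- the order of a class -/
theorem dlo_class {S : L2.Structure ℕ} (h : BW S) {k : ℕ → ℕ}
    (hk : ∀ u v, ee S u v ↔ k u = k v) (n : ℕ) :
    DLO (fun a b : {u // k u = n} => g1 S a b) where
  irrefl a := h.s1.irrefl a
  trans a b c := h.s1.trans a b c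
  total a b hab := h.s1.total a b (fun e => hab (Subtype.ext e))
  dense a b hab := by
    obtain ⟨w, h1, h2, h3⟩ := h.dn a b ((hk _ _).2 (by rw [a.2, b.2])) hab
    exact ⟨⟨w, by rw [← (hk _ _).1 h1]; exact a.2⟩, h2, h3⟩
  above a := by
    obtain ⟨w, h1, h2⟩ := h.ab a
    exact ⟨⟨w, by rw [← (hk _ _).1 h1]; exact a.2⟩, h2⟩
  below a := by
    obtain ⟨w, h1, h2⟩ := h.be a
    exact ⟨⟨w, by rw [← (hk _ _).1 h1]; exact a.2⟩, h2⟩

theorem agree {S : L2.Structure ℕ} (h : BW S) {u v : ℕ} (he : ee S u v) :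
    g1 S u v ↔ g2 S u v := by
  rcases he with rfl | he | he
  · exact iff_of_false (h.s1.irrefl _) (h.s2.irrefl _)
  · exact iff_of_true he.fl he.fk
  · exact iff_of_false (fun h1 => h.s1.irrefl _ (h.s1.trans _ _ _ h1 he.fl))
      (fun h1 => h.s2.irrefl _ (h.s2.trans _ _ _ h1 he.fk))

theorem lab_fun {S : L2.Structure ℕ} (h : BW S) : ∃ k : ℕ → ℕ, (∀ u, I1.lab S (k u) u) ∧
    (∀ u v, ee S u v ↔ k u = k v) ∧ ∀ n, ∃ u, k u = n := by
  choose k hk using fun u => I1.ex_lab (S := S) h (u := u) trivial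
  refine ⟨k, hk, fun u v => I1.lab_eq (S := S) h (hk u) (hk v), fun n => ?_⟩
  obtain ⟨u, hu⟩ := I1.lab_surj (S := S) h n
  exact ⟨u, (I1.lab_eq (S := S) h (hk u) hu).1 (ee_refl S u)⟩

theorem up1 (S S' : L2.Structure ℕ) (h : BW S) (h' : BW S')
    (hi : SIso (I1.D S) (I1.D S')) : SIso S S' := by
  obtain ⟨f⟩ := hi
  let σ : Equiv.Perm ℕ := @FirstOrder.Language.Equiv.toEquiv L2 ℕ ℕ (I1.D S) (I1.D S') f
  obtain ⟨k, k1, k2, k3⟩ := lab_fun h
  obtain ⟨m, m1, m2, m3⟩ := lab_fun h'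
  have hE : ∀ n, ∃ e : {u // k u = n} ≃ {u // m u = σ n},
      ∀ a b : {u // k u = n}, g1 S a b ↔ g1 S' (e a) (e b) := by
    intro n
    obtain ⟨e, he, -⟩ := shuffle_unique (A := {u // k u = n}) (B := {u // m u = σ n})
      (Q := Unit) (fun a b => g1 S a b) (fun a b => g1 S' a b) (dlo_class h k2 n)
      (dlo_class h' m2 (σ n)) (fun _ => ()) (fun _ => ())
      (fun _ a1 a2 ha => by
        obtain ⟨c, h1, h2⟩ := (dlo_class h k2 n).dense a1 a2 ha
        exact ⟨c, h1, h2, rfl⟩)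
      (fun _ a1 a2 ha => by
        obtain ⟨c, h1, h2⟩ := (dlo_class h' m2 (σ n)).dense a1 a2 ha
        exact ⟨c, h1, h2, rfl⟩)
      (fun _ => by
        obtain ⟨u, hu⟩ := m3 (σ n)
        exact ⟨⟨u, hu⟩, rfl⟩)
      (fun _ => by
        obtain ⟨u, hu⟩ := k3 n
        exact ⟨⟨u, hu⟩, rfl⟩)
    exact ⟨e, he⟩
  choose E hE using hE
  let e : Equiv.Perm ℕ := (Equiv.sigmaFiberEquiv k).symm.trans
    ((Equiv.sigmaCongr σ E).trans (Equiv.sigmaFiberEquiv m))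
  have he : ∀ u, e u = (E (k u) ⟨u, rfl⟩ : ℕ) := fun u => rfl
  have hm : ∀ u, m (e u) = σ (k u) := fun u => by
    rw [he]
    exact (E (k u) ⟨u, rfl⟩).2
  have same : ∀ u v, k u = k v → (g1 S u v ↔ g1 S' (e u) (e v)) := by
    intro u v huv
    have h1 := hE (k v) ⟨u, huv⟩ ⟨v, rfl⟩
    rw [he, he]
    have h2 : ∀ n (hn : k u = n), (E (k u) ⟨u, rfl⟩ : ℕ) = (E n ⟨u, hn⟩ : ℕ) := by
      intro n hn
      subst hn
      rfl
    rw [h2 _ huv]
    exact h1
  have hee : ∀ u v, ee S u v ↔ ee S' (e u) (e v) := by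
    intro u v
    rw [k2, m2, hm, hm, σ.injective.eq_iff]
  have r1 : ∀ (Q : L2.Relations 2) (u v : ℕ),
      @Structure.RelMap L2 ℕ (I1.D S) 2 Q ![k u, k v] ↔ I1.rel Q S ![u, v] := by
    intro Q u v
    refine I1.rel_iff (S := S) h Q fun i => ?_
    fin_cases i
    · exact k1 u
    · exact k1 v
  have r2 : ∀ (Q : L2.Relations 2) (u v : ℕ),
      @Structure.RelMap L2 ℕ (I1.D S') 2 Q ![m u, m v] ↔ I1.rel Q S' ![u, v] := by
    intro Q u v
    refine I1.rel_iff (S := S') h' Q fun i => ?_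
    fin_cases i
    · exact m1 u
    · exact m1 v
  have diff : ∀ (Q : L2.Relations 2) (u v : ℕ), I1.rel Q S ![u, v] ↔
      I1.rel Q S' ![e u, e v] := by
    intro Q u v
    rw [← r1, ← r2, hm, hm]
    have h3 := iso_rel f Q ![k u, k v]
    have h4 : (fun i => f (![k u, k v] i)) = ![σ (k u), σ (k v)] := by
      funext i
      fin_cases i <;> rfl
    rw [h4] at h3
    exact h3.symm
  have a1 : ∀ u v, g1 S u v ↔ g1 S' (e u) (e v) := by
    intro u v
    by_cases hk : k u = k v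
    · exact same u v hk
    · have h5 : ¬ ee S u v := fun h => hk ((k2 u v).1 h)
      have h6 : ¬ ee S' (e u) (e v) := fun h => h5 ((hee u v).2 h)
      have h7 := diff R2.fst u v
      have h8 : (¬ ee S u v ∧ g1 S u v) ↔ (¬ ee S' (e u) (e v) ∧ g1 S' (e u) (e v)) := h7
      tauto
  have a2 : ∀ u v, g2 S u v ↔ g2 S' (e u) (e v) := by
    intro u v
    by_cases hk : ee S u v
    · rw [← agree h hk, ← agree h' ((hee u v).1 hk)]
      exact a1 u v
    · have h6 : ¬ ee S' (e u) (e v) := fun h => hk ((hee u v).2 h)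
      have h7 := diff R2.snd u v
      have h8 : (¬ ee S u v ∧ g2 S u v) ↔ (¬ ee S' (e u) (e v) ∧ g2 S' (e u) (e v)) := h7
      tauto
  refine siso_ps ⟨e, fun u v => ⟨?_, ?_⟩⟩
  · rw [Bool.eq_iff_iff, ps1, ps1]
    exact (a1 u v).symm
  · rw [Bool.eq_iff_iff, ps2, ps2]
    exact (a2 u v).symm

end Pool.Agent.TH686.DO
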