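import Pool.Agent.TH686.DO.Ex

set_option autoImplicit false

/-! First-order theories of pairs of dense linear orders. -/

namespace Pool.Agent.TH686.DO

open FirstOrder FirstOrder.Language
open Pool.Agent.W889.FO Pool.Agent.W889.VC Pool.Agent.W889.VC.Grid
open Pool.Agent.W889.FO.StE (LG gd)
open Pool.Agent.TH686.FO

/-- the pairs of linear orders of grids are reduced -/
theorem red_WLo {S : L2.Structure ℕ} (h : WLo S) (hg : Good2 (DLo S)) (u v : ℕ)
    (he : ee S u v) : u = v := by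
  obtain ⟨h1, h2, h3, h4, h5, h6⟩ := h
  have hr0 : ∃ r, (DLo S).R r := by
    obtain ⟨X, hX, -⟩ := hg.inf 1
    exact ⟨_, hX 0⟩
  have hc0 : ∃ c, (DLo S).C c := by
    obtain ⟨r, hr⟩ := hr0
    obtain ⟨c, hc, -⟩ := hg.mark r hr
    exact ⟨c, hc⟩
  refine reduced hg.base hr0 hc0 (fun r c hr hc => ?_) h5 h6 h1 h2 h3 h4 he
  obtain ⟨j, s, hs, h⟩ := hg.fin hr hc
  have h7 : 0 < s.card := by
    rw [hs]
    rcases j with b | f
    · cases b <;> simp [kv]
    · show 0 < 3 + Nat.pair 0 (Encodable.encode f)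
      omega
  obtain ⟨p, hp⟩ := Finset.card_pos.1 h7
  exact ⟨p, (h p).1 hp⟩

/-- dense linear orders without endpoints -/
structure DL1 (r : ℕ → ℕ → Prop) : Prop where
  slo : SLO r
  dn : ∀ u v, r u v → ∃ w, r u w ∧ r w v
  ab : ∀ u, ∃ w, r u w
  be : ∀ u, ∃ w, r w u

theorem BW.dl1 {S : L2.Structure ℕ} (h : BW S) : DL1 (g1 S) where
  slo := h.s1
  dn u v huv := by
    by_cases he : ee S u v
    · obtain ⟨w, -, h1, h2⟩ := h.dn u v he huv
      exact ⟨w, h1, h2⟩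
    · obtain ⟨w, h1, h2⟩ := h.ab u
      exact ⟨w, h2, h.c1 u w v v h1 (ee_refl S v) he huv⟩
  ab u := by
    obtain ⟨w, -, h2⟩ := h.ab u
    exact ⟨w, h2⟩
  be u := by
    obtain ⟨w, -, h2⟩ := h.be u
    exact ⟨w, h2⟩

theorem BW.dl2 {S : L2.Structure ℕ} (h : BW S) : DL1 (g2 S) where
  slo := h.s2
  dn u v huv := by
    by_cases he : ee S u v
    · obtain ⟨w, h0, h1, h2⟩ := h.dn u v he ((agree h he).2 huv)
      exact ⟨w, (agree h h0).1 h1, (agree h (h.tr _ _ _ (ee_symm h0) he)).1 h2⟩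
    · obtain ⟨w, h1, h2⟩ := h.ab u
      exact ⟨w, (agree h h1).1 h2, h.c2 u w v v h1 (ee_refl S v) he huv⟩
  ab u := by
    obtain ⟨w, h1, h2⟩ := h.ab u
    exact ⟨w, (agree h h1).1 h2⟩
  be u := by
    obtain ⟨w, h1, h2⟩ := h.be u
    exact ⟨w, (agree h (ee_symm h1)).1 h2⟩

/-- Vaught's conjecture reduces to theories of pairs of dense linear orders. -/
theorem red_dd (hV : ∀ T' : L2.Theory, (∀ S : L2.Structure ℕ, @Theory.Model L2 ℕ S T' →
    DL1 (g1 S) ∧ DL1 (g2 S)) → Vaught L2 T') (T : LG.Theory) : Vaught LG T := by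
  have := countable_L2
  refine ft_PL.reduce (fun T' hT' => ?_) T
  refine I1.transfer (fun S S' => up1 S S') T' (fun M hM => ?_) fun T2 hT2 =>
    hV T2 fun S hS => ⟨(hT2 S hS).1.dl1, (hT2 S hS).1.dl2⟩
  obtain ⟨h1, h2⟩ := hT' M hM
  exact ex1 M h1.2.2.2.2.1 h1.2.2.2.2.2 (red_WLo h1 h2)

end Pool.Agent.TH686.DO
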