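import Pool.Agent.W889.VC.PL

set_option autoImplicit false

/-! Pairs of linear orders without non-trivial intervals on which the orders agree. -/

namespace Pool.Agent.TH686.DO

open Pool.Agent.W889.VC Pool.Agent.W889.VC.Grid

/-- `u` is below `v` for both orders, the two intervals between them coincide, and the orders agree
there -/
structure Mon {T : Type} (l k : T → T → Prop) (u v : T) : Prop where
  fl : l u v
  fk : k u v
  btw : ∀ w, (l u w ∧ l w v) ↔ (k u w ∧ k w v)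
  agr : ∀ w w', l u w → l w v → l u w' → l w' v → (l w w' ↔ k w w')

/-- equal or bounding a common interval on which the orders agree -/
def EE {T : Type} (l k : T → T → Prop) (u v : T) : Prop := u = v ∨ Mon l k u v ∨ Mon l k v u

theorem EE.symm {T : Type} {l k : T → T → Prop} {u v : T} (h : EE l k u v) : EE l k v u := by
  rcases h with h | h | h
  · exact Or.inl h.symm
  · exact Or.inr (Or.inr h)
  · exact Or.inr (Or.inl h)

section

variable {γ : Grid ℕ} {y1 y2 : ℕ → ℕ → Prop}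

theorem reduced_aux (hb : Base γ) (hr0 : ∃ r, γ.R r) (hc0 : ∃ c, γ.C c)
    (hf : ∀ r c, γ.R r → γ.C c → ∃ p, γ.Fib r c p) (s1 : SLO y1) (s2 : SLO y2)
    (hR : Rep γ (fun u v => y1 u v ∧ y2 u v)) (hP : PP2 γ (fun u v => y1 u v ∧ y2 u v))
    (hT : TW0 γ (fun u v => y1 u v ∧ y2 u v)) (hO : Or1 γ (fun u v => y1 u v ∧ y2 u v) y1)
    {u v : ℕ} (h1 : y1 u v) (h2 : y2 u v) :
    ∃ w, (y1 u w ∧ y1 w v ∧ ¬ y2 w v) ∨ (y2 u w ∧ y2 w v ∧ ¬ y1 u w) := by
  have as1 : ∀ {a b}, y1 a b → ¬ y1 b a := fun h h' => s1.irrefl _ (s1.trans _ _ _ h h')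
  have as2 : ∀ {a b}, y2 a b → ¬ y2 b a := fun h h' => s2.irrefl _ (s2.trans _ _ _ h h')
  have nRP : ∀ {a b}, γ.R a → γ.P b → a ≠ b := fun h h' e => h'.1 (by rw [← e]; exact h)
  have nCP : ∀ {a b}, γ.C a → γ.P b → a ≠ b := fun h h' e => h'.2 (by rw [← e]; exact h)
  -- rows and points
  have f1 : ∀ r p s, γ.R r → γ.P p → γ.R s → γ.iR p s → γ.lt r s → y1 r p := fun r p s a b c d e =>
    ((hR.rp r p s a b c d).2 e).1
  have f1' : ∀ r p s, γ.R r → γ.P p → γ.R s → γ.iR p s → ¬ γ.lt r s → y1 p r :=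
    fun r p s a b c d e => hO.pr p r b a (fun h => e ((hR.rp r p s a b c d).1 h))
  -- points and columns
  have f2 : ∀ p c, γ.P p → γ.C c → y1 p c := hO.pc
  have f2a : ∀ p c d, γ.P p → γ.C c → γ.C d → γ.iC p d → γ.lt d c → y2 p c :=
    fun p c d a b e f g => ((hR.pc p c d a b e f).2 g).2
  have f2b : ∀ p c d, γ.P p → γ.C c → γ.C d → γ.iC p d → ¬ γ.lt d c → y2 c p := by
    intro p c d a b e f g
    rcases s2.total c p (nCP b a) with h | h
    · exact h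
    · exact absurd ((hR.pc p c d a b e f).1 ⟨f2 p c a b, h⟩) g
  -- points
  have f4 : ∀ p q r s, γ.P p → γ.P q → γ.R r → γ.iR p r → γ.R s → γ.iR q s → γ.lt r s → y1 p q :=
    hO.pp
  have f4' : ∀ p q c d, γ.P p → γ.P q → γ.C c → γ.iC p c → γ.C d → γ.iC q d → γ.lt c d →
      y2 p q := by
    intro p q c d hp hq hc hpc hd hqd hlt
    obtain ⟨r, hr, hpr, -⟩ := hb.rR p hp
    obtain ⟨s, hs, hqs, -⟩ := hb.rR q hq
    have hcd : c ≠ d := fun e => hb.dC.irrefl c hc (by rw [← e] at hlt; exact hlt)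
    have hne : p ≠ q := by
      rintro rfl
      obtain ⟨t, -, -, ht⟩ := hb.rC p hp
      exact hcd ((ht c hc hpc).trans (ht d hd hqd).symm)
    by_cases h3 : r = s ∨ γ.lt r s
    · exact ((hP p q r c s d hp hq hr hpr hc hpc hs hqs hd hqd (fun h => hcd h.2)).2
        ⟨h3, Or.inr hlt⟩).2
    · push Not at h3
      have h4 : γ.lt s r := by
        rcases hb.dR.total r s hr hs h3.1 with h | h
        · exact absurd h h3.2
        · exact h
      have h5 : y1 q p := f4 q p s r hq hp hs hqs hr hpr h4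
      rcases s2.total p q hne with h | h
      · exact h
      · have h6 := (hP q p s d r c hq hp hs hqs hd hqd hr hpr hc hpc
          (fun h => hcd h.2.symm)).1 ⟨h5, h⟩
        rcases h6.2 with h7 | h7
        · exact absurd h7.symm hcd
        · exact absurd (hb.dC.trans _ _ _ hc hd hc hlt h7) (hb.dC.irrefl c hc)
  rcases cases3 γ u with hu | hu | hu <;> rcases cases3 γ v with hv | hv | hv
  · -- two rows
    have hlt := (hR.rr u v hu hv).1 ⟨h1, h2⟩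
    obtain ⟨c0, hc0⟩ := hc0
    obtain ⟨w, hw, hwr, hwc⟩ := hf v c0 hv hc0
    refine ⟨w, Or.inl ⟨f1 u w v hu hw hv hwr hlt, f1' v w v hv hw hv hwr (hb.dR.irrefl v hv), ?_⟩⟩
    intro h
    exact hR.pr w v hw hv ⟨f1' v w v hv hw hv hwr (hb.dR.irrefl v hv), h⟩
  · -- a row and a column
    obtain ⟨r', hr', l1⟩ := hb.dR.above u hu
    obtain ⟨c', hc', l2⟩ := hb.dC.above v hv
    obtain ⟨w, hw, hwr, hwc⟩ := hf r' c' hr' hc'
    refine ⟨w, Or.inl ⟨f1 u w r' hu hw hr' hwr l1, f2 w v hw hv, ?_⟩⟩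
    intro h
    exact as2 h (f2b w v c' hw hv hc' hwc (fun h => hb.dC.irrefl v hv
      (hb.dC.trans _ _ _ hv hc' hv l2 h)))
  · -- a row and a point
    obtain ⟨s, hs, hvs, -⟩ := hb.rR v hv
    obtain ⟨d, hd, hvd, -⟩ := hb.rC v hv
    have hlt := (hR.rp u v s hu hv hs hvs).1 ⟨h1, h2⟩
    obtain ⟨r', hr', l1, l2⟩ := hb.dR.dense u s hu hs hlt
    obtain ⟨c', hc', l3⟩ := hb.dC.above d hd
    obtain ⟨w, hw, hwr, hwc⟩ := hf r' c' hr' hc'
    exact ⟨w, Or.inl ⟨f1 u w r' hu hw hr' hwr l1, f4 w v r' s hw hv hr' hwr hs hvs l2,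
      as2 (f4' v w d c' hv hw hd hvd hc' hwc l3)⟩⟩
  · exact absurd ⟨h1, h2⟩ (hR.cr u v hu hv)
  · -- two columns
    have hlt := (hR.cc u v hu hv).1 ⟨h1, h2⟩
    obtain ⟨r0, hr0⟩ := hr0
    obtain ⟨w, hw, hwr, hwc⟩ := hf r0 u hr0 hu
    exact ⟨w, Or.inr ⟨f2b w u u hw hu hu hwc (hb.dC.irrefl u hu), f2a w v u hw hv hu hwc hlt,
      as1 (f2 w u hw hu)⟩⟩
  · exact absurd ⟨h1, h2⟩ (hR.cp u v hu hv)
  · exact absurd ⟨h1, h2⟩ (hR.pr u v hu hv)
  · -- a point and a column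
    obtain ⟨r, hr, hur, -⟩ := hb.rR u hu
    obtain ⟨d, hd, hud, -⟩ := hb.rC u hu
    have hlt := (hR.pc u v d hu hv hd hud).1 ⟨h1, h2⟩
    obtain ⟨c', hc', l1, l2⟩ := hb.dC.dense d v hd hv hlt
    obtain ⟨r', hr', l3⟩ := hb.dR.below r hr
    obtain ⟨w, hw, hwr, hwc⟩ := hf r' c' hr' hc'
    exact ⟨w, Or.inr ⟨f4' u w d c' hu hw hd hud hc' hwc l1, f2a w v c' hw hv hc' hwc l2,
      as1 (f4 w u r' r hw hu hr' hwr hr hur l3)⟩⟩
  · -- two points
    obtain ⟨r, hr, hur, -⟩ := hb.rR u hu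
    obtain ⟨c, hc, huc, -⟩ := hb.rC u hu
    obtain ⟨r', hr', hvr, -⟩ := hb.rR v hv
    obtain ⟨c', hc', hvc, -⟩ := hb.rC v hv
    have hne : ¬ (r = r' ∧ c = c') := by
      rintro ⟨rfl, rfl⟩
      exact hT u v r c hr hc ⟨hu, hur, huc⟩ ⟨hv, hvr, hvc⟩ ⟨h1, h2⟩
    obtain ⟨h3, h4⟩ := (hP u v r c r' c' hu hv hr hur hc huc hr' hvr hc' hvc hne).1 ⟨h1, h2⟩
    by_cases h5 : r = r'
    · subst h5
      have h6 : γ.lt c c' := by
        rcases h4 with h | h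
        · exact absurd ⟨rfl, h⟩ hne
        · exact h
      obtain ⟨d, hd, l1, l2⟩ := hb.dC.dense c c' hc hc' h6
      obtain ⟨s, hs, l3⟩ := hb.dR.below r hr
      obtain ⟨w, hw, hwr, hwc⟩ := hf s d hs hd
      exact ⟨w, Or.inr ⟨f4' u w c d hu hw hc huc hd hwc l1, f4' w v d c' hw hv hd hwc hc' hvc l2,
        as1 (f4 w u s r hw hu hs hwr hr hur l3)⟩⟩
    · have h6 : γ.lt r r' := by
        rcases h3 with h | h
        · exact absurd h h5
        · exact h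
      obtain ⟨s, hs, l1, l2⟩ := hb.dR.dense r r' hr hr' h6
      obtain ⟨d, hd, l3⟩ := hb.dC.above c' hc'
      obtain ⟨w, hw, hwr, hwc⟩ := hf s d hs hd
      exact ⟨w, Or.inl ⟨f4 u w r s hu hw hr hur hs hwr l1, f4 w v s r' hw hv hs hwr hr' hvr l2,
        as2 (f4' v w c' d hv hw hc' hvc hd hwc l3)⟩⟩

/-- no non-trivial common intervals on which the orders agree -/
theorem reduced (hb : Base γ) (hr0 : ∃ r, γ.R r) (hc0 : ∃ c, γ.C c)
    (hf : ∀ r c, γ.R r → γ.C c → ∃ p, γ.Fib r c p) (s1 : SLO y1) (s2 : SLO y2)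
    (hR : Rep γ (fun u v => y1 u v ∧ y2 u v)) (hP : PP2 γ (fun u v => y1 u v ∧ y2 u v))
    (hT : TW0 γ (fun u v => y1 u v ∧ y2 u v)) (hO : Or1 γ (fun u v => y1 u v ∧ y2 u v) y1)
    {u v : ℕ} (h : EE y1 y2 u v) : u = v := by
  have key : ∀ a b, ¬ Mon y1 y2 a b := by
    intro a b h
    obtain ⟨w, ⟨h1, h2, h3⟩ | ⟨h1, h2, h3⟩⟩ := reduced_aux hb hr0 hc0 hf s1 s2 hR hP hT hO h.fl h.fk
    · exact h3 ((h.btw w).1 ⟨h1, h2⟩).2
    · exact h3 ((h.btw w).2 ⟨h1, h2⟩).1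
  rcases h with h | h | h
  · exact h
  · exact absurd h (key _ _)
  · exact absurd h (key _ _)

end

end Pool.Agent.TH686.DO
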