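import Pool.Agent.TH686.FO.Main
import Pool.Agent.TH686.DO.Red

set_option autoImplicit false

/-! Pairs of dense linear orders: every element of a pair of linear orders is replaced by a copy of
the rational numbers. -/

namespace Pool.Agent.TH686.DO

open FirstOrder FirstOrder.Language
open Pool.Agent.W889.FO Pool.Agent.W889.VC
open Pool.Agent.W889.FO.StA (FD.all1 FD.ex1)
open Pool.Agent.TH686.FO

/-- the equivalence relation -/
def ee (S : L2.Structure ℕ) (u v : ℕ) : Prop := EE (g1 S) (g2 S) u v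

theorem fb_mon {l k : L2.Structure ℕ → ℕ → ℕ → Prop} (hl : FB l) (hk : FB k) :
    FB (fun S => Mon (l S) (k S)) := by
  intro α i j
  have h1 : FD (fun _ => True) (fun S v => ∀ w, (l S (v i) w ∧ l S w (v j)) ↔
      (k S (v i) w ∧ k S w (v j))) :=
    FD.all1 <| ((hl (Sum.inl i) x0).and (hl x0 (Sum.inl j))).iff
      ((hk (Sum.inl i) x0).and (hk x0 (Sum.inl j)))
  have h2 : FD (fun _ => True) (fun S v => ∀ w w', l S (v i) w → l S w (v j) → l S (v i) w' →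
      l S w' (v j) → (l S w w' ↔ k S w w')) :=
    FD.all1 <| FD.all1 <| (hl (Sum.inl (Sum.inl i)) x1).imp <| (hl x1 (Sum.inl (Sum.inl j))).imp <|
      (hl (Sum.inl (Sum.inl i)) x0).imp <| (hl x0 (Sum.inl (Sum.inl j))).imp <|
      (hl x1 x0).iff (hk x1 x0)
  refine ((hl i j).and <| (hk i j).and <| h1.and h2).congr fun S _ v => ?_
  exact ⟨fun ⟨a, b, c, d⟩ => ⟨a, b, c, d⟩, fun ⟨a, b, c, d⟩ => ⟨a, b, c, d⟩⟩

theorem fb_ee : FB ee := fun {_} i j => by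
  have h1 := fb_mon fb_g1 fb_g2 i j
  have h2 := fb_mon fb_g1 fb_g2 j i
  exact (FD.eq i j).or (h1.or h2)

/-- pairs of linear orders in which the classes are copies of the rational numbers -/
structure BW (S : L2.Structure ℕ) : Prop where
  s1 : SLO (g1 S)
  s2 : SLO (g2 S)
  tr : ∀ u v w, ee S u v → ee S v w → ee S u w
  c1 : ∀ u u' v v', ee S u u' → ee S v v' → ¬ ee S u v → g1 S u v → g1 S u' v'
  c2 : ∀ u u' v v', ee S u u' → ee S v v' → ¬ ee S u v → g2 S u v → g2 S u' v'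
  dn : ∀ u v, ee S u v → g1 S u v → ∃ w, ee S u w ∧ g1 S u w ∧ g1 S w v
  ab : ∀ u, ∃ w, ee S u w ∧ g1 S u w
  be : ∀ u, ∃ w, ee S u w ∧ g1 S w u
  inf : ∀ n : ℕ, ∃ X : Fin n → ℕ, ∀ i j, ee S (X i) (X j) → i = j

theorem ax_BW : Ax BW := by
  have he : FB ee := fb_ee
  have h3 : Ax (fun S => ∀ u v w, ee S u v → ee S v w → ee S u w) :=
    Ax.of <| FD.all1 <| FD.all1 <| FD.all1 <| (he x2 x1).imp <| (he x1 x0).imp (he x2 x0)
  have h4 : Ax (fun S => ∀ u u' v v', ee S u u' → ee S v v' → ¬ ee S u v → g1 S u v →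
      g1 S u' v') :=
    Ax.of <| FD.all1 <| FD.all1 <| FD.all1 <| FD.all1 <| (he x3 x2).imp <| (he x1 x0).imp <|
      (he x3 x1).not.imp <| (fb_g1 x3 x1).imp (fb_g1 x2 x0)
  have h5 : Ax (fun S => ∀ u u' v v', ee S u u' → ee S v v' → ¬ ee S u v → g2 S u v →
      g2 S u' v') :=
    Ax.of <| FD.all1 <| FD.all1 <| FD.all1 <| FD.all1 <| (he x3 x2).imp <| (he x1 x0).imp <|
      (he x3 x1).not.imp <| (fb_g2 x3 x1).imp (fb_g2 x2 x0)
  have h6 : Ax (fun S => ∀ u v, ee S u v → g1 S u v → ∃ w, ee S u w ∧ g1 S u w ∧ g1 S w v) :=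
    Ax.of <| FD.all1 <| FD.all1 <| (he x1 x0).imp <| (fb_g1 x1 x0).imp <| FD.ex1 <|
      (he x2 x0).and <| (fb_g1 x2 x0).and (fb_g1 x0 x1)
  have h7 : Ax (fun S => ∀ u, ∃ w, ee S u w ∧ g1 S u w) :=
    Ax.of <| FD.all1 <| FD.ex1 <| (he x1 x0).and (fb_g1 x1 x0)
  have h8 : Ax (fun S => ∀ u, ∃ w, ee S u w ∧ g1 S w u) :=
    Ax.of <| FD.all1 <| FD.ex1 <| (he x1 x0).and (fb_g1 x0 x1)
  have h9 : Ax (fun S => ∀ n : ℕ, ∃ X : Fin n → ℕ, ∀ i j, ee S (X i) (X j) → i = j) :=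
    Ax.all fun n => Ax.of <| FD.ex (P := fun S _ (X : Fin n → ℕ) =>
      ∀ i j, ee S (X i) (X j) → i = j) <| FD.fin fun i => FD.fin fun j =>
        (he (Sum.inr i) (Sum.inr j)).imp (FD.const (i = j))
  refine ((ax_slo fb_g1).and <| (ax_slo fb_g2).and <| h3.and <| h4.and <| h5.and <| h6.and <|
    h7.and <| h8.and h9).congr fun S => ?_
  exact ⟨fun ⟨a, b, c, d, e, f, g, h, i⟩ => ⟨a, b, c, d, e, f, g, h, i⟩,
    fun ⟨a, b, c, d, e, f, g, h, i⟩ => ⟨a, b, c, d, e, f, g, h, i⟩⟩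

theorem ee_refl (S : L2.Structure ℕ) (u : ℕ) : ee S u u := Or.inl rfl

theorem ee_symm {S : L2.Structure ℕ} {u v : ℕ} (h : ee S u v) : ee S v u := EE.symm h

theorem infinite_classes {E : ℕ → ℕ → Prop} (hr : ∀ u, E u u) (hs : ∀ u v, E u v → E v u)
    (ht : ∀ u v w, E u v → E v w → E u w)
    (hi : ∀ n : ℕ, ∃ X : Fin n → ℕ, ∀ i j, E (X i) (X j) → i = j) (N : ℕ) :
    ∃ u, N ≤ u ∧ ∀ u', u' < u → ¬ E u' u := by
  classical
  by_contra hcon
  push Not at hcon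
  obtain ⟨X, hX⟩ := hi (N + 1)
  have h1 : ∀ i, ∃ r, E r (X i) ∧ ∀ u', u' < r → ¬ E u' r := by
    intro i
    have hex : ∃ r, E r (X i) := ⟨X i, hr _⟩
    refine ⟨Nat.find hex, Nat.find_spec hex, fun u' h1 h2 => ?_⟩
    exact Nat.find_min hex h1 (ht _ _ _ h2 (Nat.find_spec hex))
  choose g hg1 hg2 using h1
  have h3 : ∀ i, g i < N := fun i => by
    by_contra h4
    obtain ⟨u', h5, h6⟩ := hcon (g i) (by omega)
    exact hg2 i u' h5 h6
  have h4 : Function.Injective (fun i => (⟨g i, h3 i⟩ : Fin N)) := by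
    intro i j hij
    have h5 : g i = g j := congrArg Fin.val hij
    refine hX i j (ht _ _ _ (hs _ _ (hg1 i)) ?_)
    rw [h5]
    exact hg1 j
  have := Fintype.card_le_of_injective _ h4
  simp at this

/-- the interpretation -/
def I1 : Itq L2 L2 where
  W := BW
  axW := ax_BW
  dom := fun _ _ => True
  eqv := ee
  rel := fun {n} Q => match n, Q with
    | _, R2.fst => fun S u => ¬ ee S (u 0) (u 1) ∧ g1 S (u 0) (u 1)
    | _, R2.snd => fun S u => ¬ ee S (u 0) (u 1) ∧ g2 S (u 0) (u 1)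
  fdom := FD.const True
  feqv := (fb_ee 0 1).mono fun _ _ => trivial
  frel := fun {n} Q => match n, Q with
    | _, R2.fst => ((fb_ee 0 1).not.and (fb_g1 0 1)).mono fun _ _ => trivial
    | _, R2.snd => ((fb_ee 0 1).not.and (fb_g2 0 1)).mono fun _ _ => trivial
  refl := fun S _ u _ => ee_refl S u
  symm := fun S _ u v _ _ h => ee_symm h
  trans := fun S hS u v w _ _ _ h h' => hS.tr u v w h h'
  cong := fun S hS n Q => match n, Q with
    | _, R2.fst => fun u v _ _ h ⟨h1, h2⟩ =>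
      ⟨fun h3 => h1 (hS.tr _ _ _ (h 0) (hS.tr _ _ _ h3 (ee_symm (h 1)))),
        hS.c1 _ _ _ _ (h 0) (h 1) h1 h2⟩
    | _, R2.snd => fun u v _ _ h ⟨h1, h2⟩ =>
      ⟨fun h3 => h1 (hS.tr _ _ _ (h 0) (hS.tr _ _ _ h3 (ee_symm (h 1)))),
        hS.c2 _ _ _ _ (h 0) (h 1) h1 h2⟩
  inf := fun S hS N => by
    obtain ⟨u, h1, h2⟩ := infinite_classes (ee_refl S) (fun _ _ => ee_symm) hS.tr hS.inf N
    exact ⟨u, h1, trivial, fun u' h3 _ => h2 u' h3⟩

end Pool.Agent.TH686.DO
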