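import Pool.Agent.TH686.DO.Inv2

set_option autoImplicit false

/-! Faithful completeness of pairs of dense linear orders and of dense linear orders with an
involution. -/

namespace Pool.Agent.TH686.DO

open FirstOrder FirstOrder.Language
open Pool.Agent.W889.FO Pool.Agent.W889.VC Pool.Agent.W889.VC.Grid
open Pool.Agent.W889.SD (Nth bp_nth)
open Pool.Agent.TH686.FO

theorem faithful_interp' {Y Z : Type} [MeasurableSpace Y] [MeasurableSpace Z] {E : Y → Y → Prop}
    {E0 : Z → Z → Prop} {K0 : Z → Prop}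
    (hF : Faithful E0 K0) {W : Y → Prop} {δ : Y → Z} (symm : ∀ y z, E y z → E z y)
    (symm0 : ∀ y z, E0 y z → E0 z y)
    (hW : BP W) (hδ : Measurable δ) (hi : ∀ y z, E y z → W y → W z)
    (h1 : ∀ y z, W y → W z → (E y z ↔ E0 (δ y) (δ z)))
    (h2 : ∀ x, K0 x → ∃ y, W y ∧ E0 (δ y) x) {K : Y → Prop} (hK : ∀ y, W y → K y) :
    Faithful E K := by
  intro a B hB hinv
  obtain ⟨B', F, k1, k2, k3, k4, k5, k6, k7⟩ := hF a B hB hinv
  have hstep : ∀ y z, E y z → (W y ∧ δ y ∈ B') → (W z ∧ δ z ∈ B') := by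
    rintro y z h ⟨h3, h4⟩
    have h5 := hi y z h h3
    exact ⟨h5, (k2 _ _ ((h1 y z h3 h5).1 h)).1 h4⟩
  refine ⟨{y | W y ∧ δ y ∈ B'}, fun y => F (δ y), MeasurableSet.inter hW (hδ k1),
    fun y z h => ⟨hstep y z h, hstep z y (symm _ _ h)⟩, fun y hy => hK y hy.1, k4.comp hδ,
    fun y hy => k5 _ hy.2, fun y hy z hz => ?_, fun x hx => ?_⟩
  · rw [← k6 _ hy.2 _ hz.2]
    exact h1 y z hy.1 hz.1
  · obtain ⟨y0, h3, h4⟩ := k7 x hx
    obtain ⟨y, h5, h6⟩ := h2 y0 (k3 _ h3)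
    have h7 : δ y ∈ B' := (k2 _ _ h6).2 h3
    exact ⟨y, ⟨h5, h7⟩, h4.trans ((k6 _ h3 _ h7).1 (symm0 _ _ h6))⟩

theorem PIso.refl (y : PairStr) : PIso y y := ⟨1, fun _ _ => ⟨rfl, rfl⟩⟩

theorem piso_of {S S' : L2.Structure ℕ} (h : SIso S S') : PIso (ps S) (ps S') := by
  obtain ⟨e⟩ := h
  let σ : Equiv.Perm ℕ := @FirstOrder.Language.Equiv.toEquiv L2 ℕ ℕ S S' e
  have key : ∀ (Q : L2.Relations 2) (m n : ℕ),
      @Structure.RelMap L2 ℕ S' 2 Q ![σ m, σ n] ↔ @Structure.RelMap L2 ℕ S 2 Q ![m, n] := by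
    intro Q m n
    have h1 := iso_rel e Q ![m, n]
    have h2 : (fun i => e (![m, n] i)) = ![σ m, σ n] := by
      funext i
      fin_cases i <;> rfl
    rw [h2] at h1
    exact h1
  refine ⟨σ, fun m n => ⟨?_, ?_⟩⟩
  · rw [Bool.eq_iff_iff, ps1, ps1]
    exact key R2.fst m n
  · rw [Bool.eq_iff_iff, ps2, ps2]
    exact key R2.snd m n

theorem siso_ofp {y z : PairStr} (h : PIso y z) : SIso (ofp y) (ofp z) := by
  refine siso_ps ?_
  rw [ps_ofp, ps_ofp]
  exact h

theorem piso_ofp {y z : PairStr} (h : SIso (ofp y) (ofp z)) : PIso y z := by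
  have := piso_of h
  rwa [ps_ofp, ps_ofp] at this

theorem siso_ofp_ps (S : L2.Structure ℕ) : SIso S (ofp (ps S)) := by
  refine siso_ps ?_
  rw [ps_ofp]
  exact PIso.refl _

theorem bp_ax {W : L2.Structure ℕ → Prop} (h : Ax W) : BP (fun y : PairStr => W (ofp y)) := by
  have := countable_L2
  have hsc : Countable L2.Sentence := countable_sentence
  obtain ⟨T, hT⟩ := h
  have hrel : ∀ (n : ℕ) (R : L2.Relations n) (a : Fin n → ℕ),
      BP (fun y : PairStr => @Structure.RelMap L2 ℕ (ofp y) n R a) := by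
    intro n R a
    cases R with
    | fst => exact bp_fst (a 0) (a 1)
    | snd => exact bp_snd (a 0) (a 1)
  have hT' : Countable T := Subtype.countable
  have h1 : BP (fun y : PairStr => ∀ φ : T, @Sentence.Realize L2 ℕ (ofp y) φ.1) :=
    BP.all fun φ => bp_sentence hrel φ.1
  refine h1.congr fun y => ?_
  rw [← hT]
  constructor
  · exact fun h2 => ax_iff.2 fun φ hφ => h2 ⟨φ, hφ⟩
  · exact fun h2 φ => ax_iff.1 h2 φ.1 φ.2

open Classical in
/-- the interpreted pair -/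
noncomputable def dl (I : Itq L2 L2) (y : PairStr) : PairStr :=
  if y ∈ {y : PairStr | I.W (ofp y)} then ps (I.D (ofp y)) else (fun _ _ => false, fun _ _ => false)

theorem dl_of {I : Itq L2 L2} {y : PairStr} (h : I.W (ofp y)) : dl I y = ps (I.D (ofp y)) :=
  if_pos h

theorem measurable_dl (I : Itq L2 L2) : Measurable (dl I) := by
  classical
  let s : Set PairStr := {y : PairStr | I.W (ofp y)}
  have hs : MeasurableSet s := bp_ax I.axW
  let f : s → L2.Structure ℕ := fun y => ofp y.1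
  have hb : ∀ (n : ℕ) (R : L2.Relations n) (a : Fin n → ℕ),
      BP (fun y => @Structure.RelMap L2 ℕ (f y) n R a) := by
    intro n R a
    cases R with
    | fst => exact measurable_subtype_coe (bp_fst (a 0) (a 1))
    | snd => exact measurable_subtype_coe (bp_snd (a 0) (a 1))
  have hW : ∀ y, I.W (f y) := fun y => y.2
  have hdom : ∀ u, BP (fun y => I.dom (f y) u) := fun u => I.fdom.bp hb hW (fun _ => u)
  have heqv : ∀ u v, BP (fun y => I.eqv (f y) u v) := fun u v => I.feqv.bp hb hW ![u, v]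
  have hrp : ∀ u, BP (fun y => I.rp (f y) u) := fun u =>
    (hdom u).and (BP.all fun u' => (BP.const (u' < u)).imp ((hdom u').imp (heqv u' u).not))
  have hD : ∀ {n : ℕ} (R : L2.Relations n) (v : Fin n → ℕ),
      BP (fun y => @Structure.RelMap L2 ℕ (I.D (f y)) n R v) := fun {n} R v =>
    BP.ex fun u : Fin n → ℕ => (BP.all fun i => bp_nth hrp (v i) (u i)).and
      ((I.frel R).bp hb hW u)
  have hF : Measurable (fun y : s => ps (I.D (f y))) := by
    refine Measurable.prodMk ?_ ?_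
    · refine measurable_pi_iff.2 fun u => measurable_pi_iff.2 fun v => measurable_to_bool ?_
      refine (congrArg MeasurableSet (Set.ext fun y => ?_)).mp (hD R2.fst ![u, v])
      show g1 (I.D (f y)) u v ↔ (ps (I.D (f y))).1 u v = true
      exact (ps1 _ u v).symm
    · refine measurable_pi_iff.2 fun u => measurable_pi_iff.2 fun v => measurable_to_bool ?_
      refine (congrArg MeasurableSet (Set.ext fun y => ?_)).mp (hD R2.snd ![u, v])
      show g2 (I.D (f y)) u v ↔ (ps (I.D (f y))).2 u v = true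
      exact (ps2 _ u v).symm
  have h := Measurable.dite (s := s) hF
    (g := fun _ => ((fun _ _ => false, fun _ _ => false) : PairStr)) measurable_const hs
  convert h using 1
  funext y
  unfold dl
  by_cases hy : y ∈ s
  · rw [dif_pos hy, if_pos hy]
  · rw [dif_neg hy, if_neg hy]

/-- faithful completeness from a first-order interpretation -/
theorem Itq_faithful (I : Itq L2 L2)
    (hup : ∀ S S', I.W S → I.W S' → SIso (I.D S) (I.D S') → SIso S S') {K0 K : PairStr → Prop}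
    (hF : Faithful PIso K0) (hex : ∀ x, K0 x → ∃ S, I.W S ∧ SIso (I.D S) (ofp x))
    (hK : ∀ y, I.W (ofp y) → K y) : Faithful PIso K := by
  refine faithful_interp' hF (W := fun y => I.W (ofp y)) (δ := dl I) (fun _ _ h => h.symm)
    (fun _ _ h => h.symm) (bp_ax I.axW) (measurable_dl I)
    (fun y z h hy => I.W_iso (S := ofp y) hy (siso_ofp h)) (fun y z hy hz => ?_) (fun x hx => ?_)
    hK
  · rw [dl_of hy, dl_of hz]
    constructor
    · exact fun h => piso_of (I.iso_down (S := ofp y) hy (siso_ofp h))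
    · exact fun h => piso_ofp (hup _ _ hy hz (siso_ps h))
  · obtain ⟨S, h1, h2⟩ := hex x hx
    have h3 := siso_ofp_ps S
    have h4 : I.W (ofp (ps S)) := I.W_iso (S := S) h1 h3
    refine ⟨ps S, h4, ?_⟩
    rw [dl_of h4]
    have h5 := piso_of (((I.iso_down (S := S) h1 h3).symm).trans h2)
    rwa [ps_ofp] at h5

/-- reduced pairs of linear orders -/
def Rdc (y : PairStr) : Prop :=
  TwoLin y ∧ ∀ u v, EE (fun m n => y.1 m n = true) (fun m n => y.2 m n = true) u v → u = v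

/-- the class -/
def WR (y : PairStr) : Prop :=
  WL y ∧ (∃ r, (DL y).R r) ∧ (∃ c, (DL y).C c) ∧
    ∀ r c, (DL y).R r → (DL y).C c → ∃ p, (DL y).Fib r c p

theorem WR_iso {γ δ : Grid ℕ} {σ : Equiv.Perm ℕ} (h : GIso σ γ δ)
    (h1 : (∃ r, γ.R r) ∧ (∃ c, γ.C c) ∧ ∀ r c, γ.R r → γ.C c → ∃ p, γ.Fib r c p) :
    (∃ r, δ.R r) ∧ (∃ c, δ.C c) ∧ ∀ r c, δ.R r → δ.C c → ∃ p, δ.Fib r c p := by
  obtain ⟨⟨r, hr⟩, ⟨c, hc⟩, hf⟩ := h1
  refine ⟨⟨σ r, (h.R r).1 hr⟩, ⟨σ c, (h.C c).1 hc⟩, fun r c hr hc => ?_⟩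
  obtain ⟨r, rfl⟩ := σ.surjective r
  obtain ⟨c, rfl⟩ := σ.surjective c
  have hr' := (h.R r).2 hr
  have hc' := (h.C c).2 hc
  obtain ⟨p, hp⟩ := hf r c hr' hc'
  exact ⟨σ p, (fib_map h hr' hc').1 hp⟩

theorem target_Rdc : Target PIso Rdc DL WR where
  symm := target_PL.symm
  mg := mg_DL
  mW := bp_WL.and <| (BP.ex fun r => mg_DL.R r).and <| (BP.ex fun c => mg_DL.C c).and <|
    BP.all fun r => BP.all fun c => (mg_DL.R r).imp <| (mg_DL.C c).imp <| BP.ex fun p =>
      mg_DL.Fib r c p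
  inv := by
    rintro y z h ⟨h1, h2⟩
    obtain ⟨σ, hσ⟩ := target_PL.iso y z h
    exact ⟨target_PL.inv y z h h1, WR_iso hσ h2⟩
  iso := target_PL.iso
  iso' := fun y z hy hz => target_PL.iso' y z hy.1 hz.1
  ex := by
    intro γ h1 h2 h3 h4 h5
    obtain ⟨y, k1, k2⟩ := target_PL.ex γ h1 h2 h3 h4 h5
    exact ⟨y, ⟨k1, WR_iso k2 ⟨h2, h3, h4⟩⟩, k2⟩
  cls := by
    rintro y ⟨⟨h1, h2, h3, h4, h5, h6⟩, h7, h8, h9⟩ hb
    exact ⟨h6, fun u v he => reduced hb h7 h8 h9 h6.1 h6.2 h1 h2 h3 h4 he⟩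

/-- pairs of dense linear orders -/
def DD (y : PairStr) : Prop :=
  DL1 (fun m n => y.1 m n = true) ∧ DL1 (fun m n => y.2 m n = true)

theorem faithful_DD : Faithful PIso DD := by
  refine Itq_faithful I1 (fun S S' => up1 S S') target_Rdc.faithful (fun x hx => ?_)
    (fun y hy => ⟨BW.dl1 hy, BW.dl2 hy⟩)
  exact ex1 (ofp x) hx.1.1 hx.1.2 hx.2

/-- dense linear orders with an involution -/
def IV (y : PairStr) : Prop := IW (ofp y)

theorem faithful_IV : Faithful PIso IV :=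
  Itq_faithful I2 (fun S S' => up2 S S') faithful_DD (fun x hx => ex2 (ofp x) hx.1 hx.2)
    fun _ hy => hy

end Pool.Agent.TH686.DO
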