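import Pool.Agent.TH686.DO.Gen

set_option autoImplicit false

/-! Existence of blow-ups. -/

namespace Pool.Agent.TH686.DO

open FirstOrder FirstOrder.Language
open Pool.Agent.W889.FO Pool.Agent.W889.VC
open Pool.Agent.TH686.FO

/-- every element is replaced by a copy of the rational numbers -/
def blow (π : ℕ ≃ ℕ × ℚ) (l : ℕ → ℕ → Prop) (u v : ℕ) : Prop :=
  l (π u).1 (π v).1 ∨ ((π u).1 = (π v).1 ∧ (π u).2 < (π v).2)

variable {π : ℕ ≃ ℕ × ℚ} {l k : ℕ → ℕ → Prop}

theorem blow_ne (hl : SLO l) {u v : ℕ} (h : (π u).1 ≠ (π v).1) :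
    blow π l u v ↔ l (π u).1 (π v).1 :=
  ⟨fun h1 => h1.elim id fun h2 => absurd h2.1 h, Or.inl⟩

theorem blow_eq (hl : SLO l) {u v : ℕ} (h : (π u).1 = (π v).1) :
    blow π l u v ↔ (π u).2 < (π v).2 := by
  constructor
  · rintro (h1 | h1)
    · rw [h] at h1
      exact absurd h1 (hl.irrefl _)
    · exact h1.2
  · exact fun h1 => Or.inr ⟨h, h1⟩

theorem slo_blow (hl : SLO l) : SLO (blow π l) := by
  refine ⟨fun m h => ?_, fun a b c h1 h2 => ?_, fun a b hne => ?_⟩
  · rw [blow_eq hl rfl] at h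
    exact lt_irrefl _ h
  · by_cases e1 : (π a).1 = (π b).1
    · rw [blow_eq hl e1] at h1
      by_cases e2 : (π b).1 = (π c).1
      · rw [blow_eq hl e2] at h2
        exact (blow_eq hl (e1.trans e2)).2 (h1.trans h2)
      · rw [blow_ne hl e2, ← e1] at h2
        exact Or.inl h2
    · rw [blow_ne hl e1] at h1
      by_cases e2 : (π b).1 = (π c).1
      · rw [e2] at h1
        exact Or.inl h1
      · rw [blow_ne hl e2] at h2
        exact Or.inl (hl.trans _ _ _ h1 h2)
  · by_cases e : (π a).1 = (π b).1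
    · have h2 : (π a).2 ≠ (π b).2 := fun h => hne (π.injective (Prod.ext e h))
      rcases lt_or_gt_of_ne h2 with h | h
      · exact Or.inl ((blow_eq hl e).2 h)
      · exact Or.inr ((blow_eq hl e.symm).2 h)
    · rcases hl.total _ _ e with h | h
      · exact Or.inl (Or.inl h)
      · exact Or.inr (Or.inl h)

theorem btw_class (hl : SLO l) {u v w : ℕ} (h : (π u).1 = (π v).1) (h1 : blow π l u w)
    (h2 : blow π l w v) : (π w).1 = (π u).1 := by
  by_contra hne
  rw [blow_ne hl (fun e => hne e.symm)] at h1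
  rw [blow_ne hl (by rw [← h]; exact hne), ← h] at h2
  exact hl.irrefl _ (hl.trans _ _ _ h1 h2)

theorem mon_class (hl : SLO l) (hk : SLO k) {u v : ℕ} (h : (π u).1 = (π v).1)
    (hlt : (π u).2 < (π v).2) : Mon (blow π l) (blow π k) u v := by
  have key : ∀ {l' k' : ℕ → ℕ → Prop}, SLO l' → SLO k' → ∀ w, blow π l' u w ∧ blow π l' w v →
      blow π k' u w ∧ blow π k' w v := by
    intro l' k' hl' hk' w ⟨h1, h2⟩
    have h3 := btw_class hl' h h1 h2
    rw [blow_eq hl' h3.symm] at h1
    rw [blow_eq hl' (h3.trans h)] at h2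
    exact ⟨(blow_eq hk' h3.symm).2 h1, (blow_eq hk' (h3.trans h)).2 h2⟩
  refine ⟨(blow_eq hl h).2 hlt, (blow_eq hk h).2 hlt, fun w => ⟨key hl hk w, key hk hl w⟩, ?_⟩
  intro w w' h1 h2 h3 h4
  have e1 := btw_class hl h h1 h2
  have e2 := btw_class hl h h3 h4
  rw [blow_eq hl (e1.trans e2.symm), blow_eq hk (e1.trans e2.symm)]

theorem ee_blow (hl : SLO l) (hk : SLO k) (hr : ∀ u v, EE l k u v → u = v) (u v : ℕ) :
    EE (blow π l) (blow π k) u v ↔ (π u).1 = (π v).1 := by
  have key : ∀ u v, Mon (blow π l) (blow π k) u v → (π u).1 = (π v).1 := by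
    intro u v h
    by_contra hne
    have h1 := (blow_ne hl hne).1 h.fl
    have h2 := (blow_ne hk hne).1 h.fk
    refine hne (hr _ _ (Or.inr (Or.inl ⟨h1, h2, fun c => ?_, fun c c' c1 c2 c3 c4 => ?_⟩)))
    · have hw := h.btw (π.symm (c, 0))
      unfold blow at hw
      rw [Equiv.apply_symm_apply] at hw
      constructor
      · rintro ⟨h3, h4⟩
        obtain ⟨h5, h6⟩ := hw.1 ⟨Or.inl h3, Or.inl h4⟩
        refine ⟨?_, ?_⟩
        · rcases h5 with h5 | h5
          · exact h5
          · exact absurd h3 (by rw [h5.1]; exact hl.irrefl _)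
        · rcases h6 with h6 | h6
          · exact h6
          · exact absurd h4 (by rw [← h6.1]; exact hl.irrefl _)
      · rintro ⟨h3, h4⟩
        obtain ⟨h5, h6⟩ := hw.2 ⟨Or.inl h3, Or.inl h4⟩
        refine ⟨?_, ?_⟩
        · rcases h5 with h5 | h5
          · exact h5
          · exact absurd h3 (by rw [h5.1]; exact hk.irrefl _)
        · rcases h6 with h6 | h6
          · exact h6
          · exact absurd h4 (by rw [← h6.1]; exact hk.irrefl _)
    · have hw := h.agr (π.symm (c, 0)) (π.symm (c', 0))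
      unfold blow at hw
      rw [Equiv.apply_symm_apply, Equiv.apply_symm_apply] at hw
      have h3 := hw (Or.inl c1) (Or.inl c2) (Or.inl c3) (Or.inl c4)
      constructor
      · intro h4
        rcases h3.1 (Or.inl h4) with h5 | h5
        · exact h5
        · exact absurd h5.2 (lt_irrefl _)
      · intro h4
        rcases h3.2 (Or.inl h4) with h5 | h5
        · exact h5
        · exact absurd h5.2 (lt_irrefl _)
  constructor
  · rintro (rfl | h | h)
    · rfl
    · exact key _ _ h
    · exact (key _ _ h).symm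
  · intro h
    by_cases e : (π u).2 = (π v).2
    · exact Or.inl (π.injective (Prod.ext h e))
    · rcases lt_or_gt_of_ne e with h1 | h1
      · exact Or.inr (Or.inl (mon_class hl hk h h1))
      · exact Or.inr (Or.inr (mon_class hl hk h.symm h1))

/-- the structure given by two relations -/
@[reducible] def ofq (l k : ℕ → ℕ → Prop) : L2.Structure ℕ :=
  { funMap := fun {_} f => isEmptyElim f
    RelMap := fun {n} Q => match n, Q with
      | _, R2.fst => fun v => l (v 0) (v 1)
      | _, R2.snd => fun v => k (v 0) (v 1) }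

theorem two_eta (v : Fin 2 → ℕ) : ![v 0, v 1] = v := by
  funext m
  fin_cases m <;> rfl

theorem ex1 (M : L2.Structure ℕ) (s1 : SLO (g1 M)) (s2 : SLO (g2 M))
    (hr : ∀ u v, ee M u v → u = v) : ∃ S, BW S ∧ SIso (I1.D S) M := by
  obtain ⟨π⟩ : Nonempty (ℕ ≃ ℕ × ℚ) := nonempty_equiv_of_countable
  let S := ofq (blow π (g1 M)) (blow π (g2 M))
  have e1 : g1 S = blow π (g1 M) := rfl
  have e2 : g2 S = blow π (g2 M) := rfl
  have he : ∀ u v, ee S u v ↔ (π u).1 = (π v).1 := ee_blow s1 s2 hr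
  have hB : BW S := by
    refine ⟨slo_blow s1, slo_blow s2, ?_, ?_, ?_, ?_, ?_, ?_, ?_⟩
    · intro u v w h1 h2
      rw [he] at h1 h2 ⊢
      exact h1.trans h2
    · intro u u' v v' h1 h2 h3 h4
      rw [he] at h1 h2 h3
      rw [e1] at h4 ⊢
      rw [blow_ne s1 h3, h1, h2] at h4
      exact Or.inl h4
    · intro u u' v v' h1 h2 h3 h4
      rw [he] at h1 h2 h3
      rw [e2] at h4 ⊢
      rw [blow_ne s2 h3, h1, h2] at h4
      exact Or.inl h4
    · intro u v h1 h2
      rw [he] at h1
      rw [e1, blow_eq s1 h1] at h2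
      obtain ⟨q, h3, h4⟩ := exists_between h2
      have e3 : π (π.symm ((π u).1, q)) = ((π u).1, q) := π.apply_symm_apply _
      refine ⟨π.symm ((π u).1, q), (he _ _).2 (by rw [e3]), ?_, ?_⟩
      · rw [e1, blow_eq s1 (by rw [e3]), e3]
        exact h3
      · rw [e1, blow_eq s1 (by rw [e3]; exact h1), e3]
        exact h4
    · intro u
      have e3 : π (π.symm ((π u).1, (π u).2 + 1)) = ((π u).1, (π u).2 + 1) :=
        π.apply_symm_apply _
      refine ⟨π.symm ((π u).1, (π u).2 + 1), (he _ _).2 (by rw [e3]), ?_⟩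
      rw [e1, blow_eq s1 (by rw [e3]), e3]
      exact lt_add_one _
    · intro u
      have e3 : π (π.symm ((π u).1, (π u).2 - 1)) = ((π u).1, (π u).2 - 1) :=
        π.apply_symm_apply _
      refine ⟨π.symm ((π u).1, (π u).2 - 1), (he _ _).2 (by rw [e3]), ?_⟩
      rw [e1, blow_eq s1 (by rw [e3]), e3]
      exact sub_one_lt _
    · intro n
      refine ⟨fun i => π.symm ((i : ℕ), 0), fun i j h => ?_⟩
      rw [he, Equiv.apply_symm_apply, Equiv.apply_symm_apply] at h
      exact Fin.ext h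
  refine ⟨S, hB, Itq_D_iso I1 (S := S) hB M (fun u => (π u).1) (fun n => ?_) (fun u v _ _ => he u v)
    fun {n} Q u _ => ?_⟩
  · exact ⟨π.symm (n, 0), trivial, by rw [Equiv.apply_symm_apply]⟩
  · cases Q with
    | fst =>
      show (¬ ee S (u 0) (u 1) ∧ blow π (g1 M) (u 0) (u 1)) ↔
        @Structure.RelMap L2 ℕ M 2 R2.fst _
      rw [← two_eta fun i => (π (u i)).1, he]
      show _ ↔ g1 M _ _
      constructor
      · rintro ⟨h1, h2⟩
        exact (blow_ne s1 h1).1 h2
      · intro h1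
        have h2 : (π (u 0)).1 ≠ (π (u 1)).1 := fun e => by
          rw [e] at h1
          exact s1.irrefl _ h1
        exact ⟨h2, (blow_ne s1 h2).2 h1⟩
    | snd =>
      show (¬ ee S (u 0) (u 1) ∧ blow π (g2 M) (u 0) (u 1)) ↔
        @Structure.RelMap L2 ℕ M 2 R2.snd _
      rw [← two_eta fun i => (π (u i)).1, he]
      show _ ↔ g2 M _ _
      constructor
      · rintro ⟨h1, h2⟩
        exact (blow_ne s2 h1).1 h2
      · intro h1
        have h2 : (π (u 0)).1 ≠ (π (u 1)).1 := fun e => by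
          rw [e] at h1
          exact s2.irrefl _ h1
        exact ⟨h2, (blow_ne s2 h2).2 h1⟩

end Pool.Agent.TH686.DO
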