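import Pool.Agent.TH686.DO.Pairs

set_option autoImplicit false

/-! Dense linear orders with an involution. -/

namespace Pool.Agent.TH686.DO

open FirstOrder FirstOrder.Language
open Pool.Agent.W889.FO Pool.Agent.W889.VC
open Pool.Agent.W889.FO.StA (FD.all1 FD.ex1)
open Pool.Agent.TH686.FO

/-- dense linear orders with a perfect matching, such that the smaller elements of the pairs form an
initial segment -/
structure IW (S : L2.Structure ℕ) : Prop where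
  o : SLO (g1 S)
  dn : ∀ u v, g1 S u v → ∃ w, g1 S u w ∧ g1 S w v
  ab : ∀ u, ∃ w, g1 S u w
  be : ∀ u, ∃ w, g1 S w u
  sy : ∀ u v, g2 S u v → g2 S v u
  ir : ∀ u, ¬ g2 S u u
  fn : ∀ u v w, g2 S u v → g2 S u w → v = w
  tot : ∀ u, ∃ v, g2 S u v
  cut : ∀ u u' v v', g2 S u u' → g2 S v v' → g1 S u u' → g1 S v v' → g1 S u v'

theorem ax_IW : Ax IW := by
  have h1 := ax_slo fb_g1
  have h2 : Ax (fun S => ∀ u v, g1 S u v → ∃ w, g1 S u w ∧ g1 S w v) :=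
    Ax.of <| FD.all1 <| FD.all1 <| (fb_g1 x1 x0).imp <| FD.ex1 <| (fb_g1 x2 x0).and (fb_g1 x0 x1)
  have h3 : Ax (fun S => ∀ u, ∃ w, g1 S u w) := Ax.of <| FD.all1 <| FD.ex1 <| fb_g1 x1 x0
  have h4 : Ax (fun S => ∀ u, ∃ w, g1 S w u) := Ax.of <| FD.all1 <| FD.ex1 <| fb_g1 x0 x1
  have h5 : Ax (fun S => ∀ u v, g2 S u v → g2 S v u) :=
    Ax.of <| FD.all1 <| FD.all1 <| (fb_g2 x1 x0).imp (fb_g2 x0 x1)
  have h6 : Ax (fun S => ∀ u, ¬ g2 S u u) := Ax.of <| FD.all1 <| (fb_g2 x0 x0).not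
  have h7 : Ax (fun S => ∀ u v w, g2 S u v → g2 S u w → v = w) :=
    Ax.of <| FD.all1 <| FD.all1 <| FD.all1 <| (fb_g2 x2 x1).imp <| (fb_g2 x2 x0).imp <|
      FD.eq x1 x0
  have h8 : Ax (fun S => ∀ u, ∃ v, g2 S u v) := Ax.of <| FD.all1 <| FD.ex1 <| fb_g2 x1 x0
  have h9 : Ax (fun S => ∀ u u' v v', g2 S u u' → g2 S v v' → g1 S u u' → g1 S v v' →
      g1 S u v') :=
    Ax.of <| FD.all1 <| FD.all1 <| FD.all1 <| FD.all1 <| (fb_g2 x3 x2).imp <|
      (fb_g2 x1 x0).imp <| (fb_g1 x3 x2).imp <| (fb_g1 x1 x0).imp (fb_g1 x3 x0)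
  refine (h1.and <| h2.and <| h3.and <| h4.and <| h5.and <| h6.and <|
    h7.and <| h8.and h9).congr fun S => ?_
  exact ⟨fun ⟨a, b, c, d, e, f, g, h, i⟩ => ⟨a, b, c, d, e, f, g, h, i⟩,
    fun ⟨a, b, c, d, e, f, g, h, i⟩ => ⟨a, b, c, d, e, f, g, h, i⟩⟩

/-- smaller elements of pairs -/
def dm (S : L2.Structure ℕ) (u : ℕ) : Prop := ∃ v, g2 S u v ∧ g1 S u v

/-- the second order -/
def sd (S : L2.Structure ℕ) (u v : ℕ) : Prop := ∃ u' v', g2 S u u' ∧ g2 S v v' ∧ g1 S u' v'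

theorem fu_dm : FU dm := fun i => FD.ex1 <| (fb_g2 (Sum.inl i) x0).and (fb_g1 (Sum.inl i) x0)

theorem fb_sd : FB sd := fun i j => FD.ex1 <| FD.ex1 <| (fb_g2 (Sum.inl (Sum.inl i)) x1).and <|
  (fb_g2 (Sum.inl (Sum.inl j)) x0).and (fb_g1 x1 x0)

theorem IW.flip {S : L2.Structure ℕ} (h : IW S) {u v : ℕ} (huv : g2 S u v) :
    dm S u ↔ ¬ dm S v := by
  have hne : u ≠ v := fun e => h.ir u (by rw [← e] at huv; exact huv)
  constructor
  · rintro ⟨w, h1, h2⟩ ⟨w', h3, h4⟩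
    have e1 := h.fn _ _ _ huv h1
    have e2 := h.fn _ _ _ (h.sy _ _ huv) h3
    rw [← e1] at h2
    rw [← e2] at h4
    exact h.o.irrefl _ (h.o.trans _ _ _ h2 h4)
  · intro h1
    rcases h.o.total u v hne with h2 | h2
    · exact ⟨v, huv, h2⟩
    · exact absurd ⟨u, h.sy _ _ huv, h2⟩ h1

theorem IW.lt {S : L2.Structure ℕ} (h : IW S) {u v : ℕ} (hu : dm S u) (hv : ¬ dm S v) :
    g1 S u v := by
  obtain ⟨u', h1, h2⟩ := hu
  obtain ⟨v', h3⟩ := h.tot v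
  have h4 := h.sy _ _ h3
  obtain ⟨w, h5, h6⟩ : dm S v' := (h.flip h4).2 hv
  have e := h.fn _ _ _ h4 h5
  subst e
  exact h.cut _ _ _ _ h1 h5 h2 h6

theorem IW.inf {S : L2.Structure ℕ} (h : IW S) (N : ℕ) : ∃ u, N ≤ u ∧ dm S u := by
  by_contra hcon
  push Not at hcon
  choose p hp using h.tot
  have hf1 : {u | dm S u}.Finite := (Set.finite_Iio N).subset fun u hu => by
    by_contra h1
    exact hcon u (not_lt.1 h1) hu
  have hf2 : {u | ¬ dm S u}.Finite := (hf1.image p).subset fun u hu => by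
    refine ⟨p u, ?_, ?_⟩
    · exact (h.flip (h.sy _ _ (hp u))).2 hu
    · exact h.fn _ _ _ (hp (p u)) (h.sy _ _ (hp u))
  have h3 : (Set.univ : Set ℕ).Finite := (hf1.union hf2).subset fun u _ => em (dm S u)
  exact Set.infinite_univ h3

/-- the interpretation -/
def I2 : Itq L2 L2 where
  W := IW
  axW := ax_IW
  dom := dm
  eqv := fun _ u v => u = v
  rel := fun {n} Q => match n, Q with
    | _, R2.fst => fun S u => g1 S (u 0) (u 1)
    | _, R2.snd => fun S u => sd S (u 0) (u 1)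
  fdom := (fu_dm ()).mono fun _ _ => trivial
  feqv := FD.eq 0 1
  frel := fun {n} Q => match n, Q with
    | _, R2.fst => (fb_g1 0 1).mono fun _ _ => trivial
    | _, R2.snd => (fb_sd 0 1).mono fun _ _ => trivial
  refl := fun _ _ _ _ => rfl
  symm := fun _ _ _ _ _ _ h => h.symm
  trans := fun _ _ _ _ _ _ _ _ h h' => h.trans h'
  cong := fun S _ n Q => match n, Q with
    | _, R2.fst => fun u v _ _ h h1 => by
      have e : u = v := funext h
      rw [← e]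
      exact h1
    | _, R2.snd => fun u v _ _ h h1 => by
      have e : u = v := funext h
      rw [← e]
      exact h1
  inf := fun S hS N => by
    obtain ⟨u, h1, h2⟩ := hS.inf N
    exact ⟨u, h1, h2, fun u' h3 _ h4 => absurd h4 (Nat.ne_of_lt h3)⟩

theorem rel2 {S : L2.Structure ℕ} (h : IW S) (Q : L2.Relations 2) {n m u v : ℕ}
    (hu : I2.lab S n u) (hv : I2.lab S m v) :
    @Structure.RelMap L2 ℕ (I2.D S) 2 Q ![n, m] ↔ I2.rel Q S ![u, v] := by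
  refine I2.rel_iff (S := S) h Q fun i => ?_
  fin_cases i
  · exact hu
  · exact hv

theorem up2 (S S' : L2.Structure ℕ) (h : IW S) (h' : IW S')
    (hi : SIso (I2.D S) (I2.D S')) : SIso S S' := by
  obtain ⟨f⟩ := hi
  let σ : Equiv.Perm ℕ := @FirstOrder.Language.Equiv.toEquiv L2 ℕ ℕ (I2.D S) (I2.D S') f
  let R0 : ℕ → ℕ → Prop := fun u v => ∃ n, I2.lab S n u ∧ I2.lab S' (σ n) v
  let R1 : ℕ → ℕ → Prop := fun u v => ∃ u1 v1, g2 S u u1 ∧ g2 S' v v1 ∧ R0 u1 v1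
  have d0 : ∀ {u v}, R0 u v → dm S u ∧ dm S' v := fun ⟨n, h1, h2⟩ => ⟨h1.1, h2.1⟩
  have d1 : ∀ {u v}, R1 u v → ¬ dm S u ∧ ¬ dm S' v := fun ⟨u1, v1, h1, h2, h3⟩ =>
    ⟨(h.flip (h.sy _ _ h1)).1 (d0 h3).1, (h'.flip (h'.sy _ _ h2)).1 (d0 h3).2⟩
  have t0 : ∀ u, dm S u → ∃ v, R0 u v := by
    intro u hu
    obtain ⟨n, hn⟩ := I2.ex_lab (S := S) h hu
    obtain ⟨v, hv⟩ := I2.lab_surj (S := S') h' (σ n)
    exact ⟨v, n, hn, hv⟩
  have t0' : ∀ v, dm S' v → ∃ u, R0 u v := by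
    intro v hv
    obtain ⟨n, hn⟩ := I2.ex_lab (S := S') h' hv
    obtain ⟨u, hu⟩ := I2.lab_surj (S := S) h (σ.symm n)
    exact ⟨u, σ.symm n, hu, by rw [Equiv.apply_symm_apply]; exact hn⟩
  have u0 : ∀ {u v v'}, R0 u v → R0 u v' → v = v' := by
    rintro u v v' ⟨n, h1, h2⟩ ⟨m, h3, h4⟩
    have e : n = m := (I2.lab_eq (S := S) h h1 h3).1 rfl
    subst e
    exact (I2.lab_eq (S := S') h' h2 h4).2 rfl
  have u0' : ∀ {u u' v}, R0 u v → R0 u' v → u = u' := by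
    rintro u u' v ⟨n, h1, h2⟩ ⟨m, h3, h4⟩
    have e : σ n = σ m := (I2.lab_eq (S := S') h' h2 h4).1 rfl
    have e' := σ.injective e
    subst e'
    exact (I2.lab_eq (S := S) h h1 h3).2 rfl
  have u1 : ∀ {u v v'}, R1 u v → R1 u v' → v = v' := by
    rintro u v v' ⟨a, b, h1, h2, h3⟩ ⟨a', b', h4, h5, h6⟩
    have e := h.fn _ _ _ h1 h4
    subst e
    have e' := u0 h3 h6
    subst e'
    exact h'.fn _ _ _ (h'.sy _ _ h2) (h'.sy _ _ h5)
  have u1' : ∀ {u u' v}, R1 u v → R1 u' v → u = u' := by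
    rintro u u' v ⟨a, b, h1, h2, h3⟩ ⟨a', b', h4, h5, h6⟩
    have e := h'.fn _ _ _ h2 h5
    subst e
    have e' := u0' h3 h6
    subst e'
    exact h.fn _ _ _ (h.sy _ _ h1) (h.sy _ _ h4)
  obtain ⟨e, he⟩ := Pool.Agent.W889.SD.equiv_of_rel (fun u v => R0 u v ∨ R1 u v)
    (fun u => by
      by_cases hu : dm S u
      · obtain ⟨v, hv⟩ := t0 u hu
        exact ⟨v, Or.inl hv⟩
      · obtain ⟨u', h1⟩ := h.tot u
        obtain ⟨v', h2⟩ := t0 u' ((h.flip (h.sy _ _ h1)).2 hu)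
        obtain ⟨v, h3⟩ := h'.tot v'
        exact ⟨v, Or.inr ⟨u', v', h1, h'.sy _ _ h3, h2⟩⟩)
    (fun v => by
      by_cases hv : dm S' v
      · obtain ⟨u, hu⟩ := t0' v hv
        exact ⟨u, Or.inl hu⟩
      · obtain ⟨v', h1⟩ := h'.tot v
        obtain ⟨u', h2⟩ := t0' v' ((h'.flip (h'.sy _ _ h1)).2 hv)
        obtain ⟨u, h3⟩ := h.tot u'
        exact ⟨u, Or.inr ⟨u', v', h.sy _ _ h3, h1, h2⟩⟩)
    (by
      rintro u v v' (h1 | h1) (h2 | h2)
      · exact u0 h1 h2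
      · exact absurd (d0 h1).1 (d1 h2).1
      · exact absurd (d0 h2).1 (d1 h1).1
      · exact u1 h1 h2)
    (by
      rintro u u' v (h1 | h1) (h2 | h2)
      · exact u0' h1 h2
      · exact absurd (d0 h1).2 (d1 h2).2
      · exact absurd (d0 h2).2 (d1 h1).2
      · exact u1' h1 h2)
  have e0 : ∀ u, dm S u → R0 u (e u) := fun u hu => by
    rcases he u with h1 | h1
    · exact h1
    · exact absurd hu (d1 h1).1
  have e1 : ∀ u, ¬ dm S u → R1 u (e u) := fun u hu => by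
    rcases he u with h1 | h1
    · exact absurd (d0 h1).1 hu
    · exact h1
  have hd : ∀ u, dm S u ↔ dm S' (e u) := fun u => by
    by_cases hu : dm S u
    · exact iff_of_true hu (d0 (e0 u hu)).2
    · exact iff_of_false hu (d1 (e1 u hu)).2
  have hg : ∀ u v, g2 S u v → dm S u → g2 S' (e u) (e v) := by
    intro u v huv hu
    obtain ⟨a, b, h1, h2, h3⟩ := e1 v ((h.flip huv).1 hu)
    have ea : a = u := h.fn _ _ _ h1 (h.sy _ _ huv)
    subst ea
    have eb : b = e a := u0 h3 (e0 a hu)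
    rw [← eb]
    exact h'.sy _ _ h2
  have hg2 : ∀ u v, g2 S u v → g2 S' (e u) (e v) := by
    intro u v huv
    by_cases hu : dm S u
    · exact hg u v huv hu
    · exact h'.sy _ _ (hg v u (h.sy _ _ huv) ((h.flip (h.sy _ _ huv)).2 hu))
  have hg2' : ∀ u v, g2 S u v ↔ g2 S' (e u) (e v) := by
    intro u v
    refine ⟨hg2 u v, fun h1 => ?_⟩
    obtain ⟨w, hw⟩ := h.tot u
    have h2 := h'.fn _ _ _ (hg2 u w hw) h1
    rw [← e.injective h2]
    exact hw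
  have rr : ∀ (Q : L2.Relations 2) (u v : ℕ), dm S u → dm S v →
      (I2.rel Q S ![u, v] ↔ I2.rel Q S' ![e u, e v]) := by
    intro Q u v hu hv
    obtain ⟨n, h1, h2⟩ := e0 u hu
    obtain ⟨m, h3, h4⟩ := e0 v hv
    rw [← rel2 h Q h1 h3, ← rel2 h' Q h2 h4]
    have h5 := iso_rel f Q ![n, m]
    have h6 : (fun i => f (![n, m] i)) = ![σ n, σ m] := by
      funext i
      fin_cases i <;> rfl
    rw [h6] at h5
    exact h5.symm
  have hlt : ∀ u v, g1 S u v ↔ g1 S' (e u) (e v) := by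
    intro u v
    by_cases hu : dm S u <;> by_cases hv : dm S v
    · exact rr R2.fst u v hu hv
    · exact iff_of_true (h.lt hu hv) (h'.lt ((hd u).1 hu) (fun h1 => hv ((hd v).2 h1)))
    · have a1 := h.lt hv hu
      have a2 := h'.lt ((hd v).1 hv) (fun h1 => hu ((hd u).2 h1))
      exact iff_of_false (fun h1 => h.o.irrefl _ (h.o.trans _ _ _ h1 a1))
        (fun h1 => h'.o.irrefl _ (h'.o.trans _ _ _ h1 a2))
    · obtain ⟨u', h1⟩ := h.tot u
      obtain ⟨v', h2⟩ := h.tot v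
      have b1 := (h.flip (h.sy _ _ h1)).2 hu
      have b2 := (h.flip (h.sy _ _ h2)).2 hv
      have h3 : sd S u' v' ↔ sd S' (e u') (e v') := rr R2.snd u' v' b1 b2
      have h4 : g1 S u v ↔ sd S u' v' := by
        constructor
        · exact fun h5 => ⟨u, v, h.sy _ _ h1, h.sy _ _ h2, h5⟩
        · rintro ⟨a, b, h5, h6, h7⟩
          rw [h.fn _ _ _ (h.sy _ _ h1) h5, h.fn _ _ _ (h.sy _ _ h2) h6]
          exact h7
      have c1 := hg2 _ _ h1
      have c2 := hg2 _ _ h2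
      have h5 : g1 S' (e u) (e v) ↔ sd S' (e u') (e v') := by
        constructor
        · exact fun h5 => ⟨e u, e v, h'.sy _ _ c1, h'.sy _ _ c2, h5⟩
        · rintro ⟨a, b, h5, h6, h7⟩
          rw [h'.fn _ _ _ (h'.sy _ _ c1) h5, h'.fn _ _ _ (h'.sy _ _ c2) h6]
          exact h7
      rw [h4, h5]
      exact h3
  refine siso_ps ⟨e, fun u v => ⟨?_, ?_⟩⟩
  · rw [Bool.eq_iff_iff, ps1, ps1]
    exact (hlt u v).symm
  · rw [Bool.eq_iff_iff, ps2, ps2]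
    exact (hg2' u v).symm

end Pool.Agent.TH686.DO
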