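import Pool.Agent.TH686.DO.Bor

set_option autoImplicit false

/-! Involutions of the rational numbers up to conjugation by order automorphisms. -/

namespace Pool.Agent.TH686.DO

open FirstOrder FirstOrder.Language
open Pool.Agent.W889.FO Pool.Agent.W889.VC
open Pool.Agent.TH686.FO

/-- conjugation by order automorphisms of the rational numbers -/
def Cj (s t : ℚ → ℚ) : Prop := ∃ φ : ℚ ≃o ℚ, ∀ q, t (φ q) = φ (s q)

theorem Cj.symm {s t : ℚ → ℚ} (h : Cj s t) : Cj t s := by
  obtain ⟨φ, h⟩ := h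
  refine ⟨φ.symm, fun q => ?_⟩
  have h1 := h (φ.symm q)
  rw [φ.apply_symm_apply] at h1
  rw [h1, φ.symm_apply_apply]

/-- involutions which exchange an initial segment with its complement -/
structure XI (s : ℚ → ℚ) : Prop where
  inv : ∀ q, s (s q) = q
  ne : ∀ q, s q ≠ q
  cut : ∀ p q, p < s p → q < s q → p < s q

/-- an enumeration of the rational numbers -/
noncomputable def en : ℕ ≃ ℚ := (Denumerable.eqv ℚ).symm

/-- the structure on the natural numbers -/
noncomputable def tr (s : ℚ → ℚ) : PairStr :=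
  (fun u v => decide (en u < en v), fun u v => decide (s (en u) = en v))

theorem tr1 (s : ℚ → ℚ) (u v : ℕ) : (tr s).1 u v = true ↔ en u < en v := by
  simp [tr]

theorem tr2 (s : ℚ → ℚ) (u v : ℕ) : (tr s).2 u v = true ↔ s (en u) = en v := by
  simp [tr]

theorem measurable_tr : Measurable tr := by
  refine Measurable.prodMk measurable_const ?_
  refine measurable_pi_iff.2 fun u => measurable_pi_iff.2 fun v => measurable_to_bool ?_
  have h : Measurable fun s : ℚ → ℚ => s (en u) := measurable_pi_apply _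
  refine (congrArg MeasurableSet (Set.ext fun s => ?_)).mp (h (measurableSet_singleton (en v)))
  exact (tr2 s u v).symm

theorem tr_iso (s t : ℚ → ℚ) : Cj s t ↔ PIso (tr s) (tr t) := by
  constructor
  · rintro ⟨φ, h⟩
    refine ⟨(en.trans φ.toEquiv).trans en.symm, fun m n => ⟨?_, ?_⟩⟩
    · rw [Bool.eq_iff_iff, tr1, tr1]
      simp
    · rw [Bool.eq_iff_iff, tr2, tr2]
      simp only [Equiv.trans_apply, Equiv.apply_symm_apply]
      show t (φ (en m)) = φ (en n) ↔ _
      rw [h, φ.injective.eq_iff]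
  · rintro ⟨σ, h⟩
    let ψ : ℚ ≃ ℚ := (en.symm.trans σ).trans en
    have hψ : ∀ p q, ψ p ≤ ψ q ↔ p ≤ q := by
      intro p q
      have h1 := (h (en.symm q) (en.symm p)).1
      rw [Bool.eq_iff_iff, tr1, tr1, Equiv.apply_symm_apply, Equiv.apply_symm_apply] at h1
      exact not_lt.symm.trans ((not_congr h1).trans not_lt)
    refine ⟨⟨ψ, fun {p q} => hψ p q⟩, fun q => ?_⟩
    have h1 := (h (en.symm q) (en.symm (s q))).2
    rw [Bool.eq_iff_iff, tr2, tr2, Equiv.apply_symm_apply, Equiv.apply_symm_apply] at h1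
    exact h1.2 rfl

theorem xi_of {s : ℚ → ℚ} (h : IW (ofp (tr s))) : XI s := by
  have h1 : ∀ u v, g1 (ofp (tr s)) u v ↔ en u < en v := tr1 s
  have h2 : ∀ u v, g2 (ofp (tr s)) u v ↔ s (en u) = en v := tr2 s
  have h3 : ∀ q, s (s q) = q := by
    intro q
    have h4 := h.sy (en.symm q) (en.symm (s q)) ((h2 _ _).2 (by
      rw [Equiv.apply_symm_apply, Equiv.apply_symm_apply]))
    rw [h2, Equiv.apply_symm_apply, Equiv.apply_symm_apply] at h4
    exact h4
  refine ⟨h3, fun q h4 => ?_, fun p q h4 h5 => ?_⟩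
  · refine h.ir (en.symm q) ((h2 _ _).2 ?_)
    rw [Equiv.apply_symm_apply]
    exact h4
  · have h6 := h.cut (en.symm p) (en.symm (s p)) (en.symm q) (en.symm (s q))
    rw [h2, h2, h1, h1, h1] at h6
    simp only [Equiv.apply_symm_apply] at h6
    exact h6 trivial trivial h4 h5

theorem ex_rat (x : PairStr) (hx : IV x) : ∃ s, IV (tr s) ∧ PIso (tr s) x := by
  have hx' : IW (ofp x) := hx
  have h1 : ∀ u v, g1 (ofp x) u v ↔ x.1 u v = true := fun u v => Iff.rfl
  have h2 : ∀ u v, g2 (ofp x) u v ↔ x.2 u v = true := fun u v => Iff.rfl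
  have hA : DLO (g1 (ofp x)) := ⟨hx'.o.irrefl, hx'.o.trans, hx'.o.total, hx'.dn, hx'.ab, hx'.be⟩
  have hB : DLO (fun p q : ℚ => p < q) :=
    ⟨fun a => lt_irrefl a, fun a b c => lt_trans, fun a b => lt_or_gt_of_ne, fun a b h =>
      exists_between h, fun a => ⟨a + 1, lt_add_one a⟩, fun a => ⟨a - 1, sub_one_lt a⟩⟩
  obtain ⟨e, he, -⟩ := shuffle_unique (A := ℕ) (B := ℚ) (Q := Unit) (g1 (ofp x))
    (fun p q : ℚ => p < q) hA hB (fun _ => ()) (fun _ => ())
    (fun _ a1 a2 ha => by
      obtain ⟨c, h1, h2⟩ := hA.dense a1 a2 ha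
      exact ⟨c, h1, h2, rfl⟩)
    (fun _ a1 a2 ha => by
      obtain ⟨c, h1, h2⟩ := hB.dense a1 a2 ha
      exact ⟨c, h1, h2, rfl⟩)
    (fun _ => ⟨0, rfl⟩) (fun _ => ⟨0, rfl⟩)
  choose p hp using hx'.tot
  let s : ℚ → ℚ := fun q => e (p (e.symm q))
  have hs : PIso (tr s) x := by
    refine ⟨en.trans e.symm, fun m n => ⟨?_, ?_⟩⟩
    · rw [Bool.eq_iff_iff, tr1, ← h1, he]
      simp
    · rw [Bool.eq_iff_iff, tr2, ← h2]
      show g2 (ofp x) (e.symm (en m)) (e.symm (en n)) ↔ e (p (e.symm (en m))) = en n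
      constructor
      · intro h3
        rw [hx'.fn _ _ _ (hp _) h3, e.apply_symm_apply]
      · intro h3
        rw [← h3, e.symm_apply_apply]
        exact hp _
  refine ⟨s, ?_, hs⟩
  exact I2.W_iso (S := ofp x) hx' (siso_ofp hs.symm)

/-- the class of these involutions is faithfully complete -/
theorem faithful_XI : Faithful Cj XI :=
  faithful_interp' faithful_IV (W := fun s => IV (tr s)) (δ := tr) (fun _ _ h => h.symm)
    (fun _ _ h => h.symm) (measurable_tr (bp_ax ax_IW)) measurable_tr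
    (fun y z h hy => I2.W_iso (S := ofp (tr y)) hy (siso_ofp ((tr_iso y z).1 h)))
    (fun y z _ _ => tr_iso y z) ex_rat (fun _ hy => xi_of hy)

end Pool.Agent.TH686.DO
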